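import Pool.Agent.H66.UX.Defs

/-!
# [H47 RZ] Julia set = sphere, a chart with a strictly preperiodic point at infinity: definitions

`RF a b D P F`: the map in the plane; `P` the post-critical set (compact, forward invariant), `F` the forward orbit of infinity (finite, off `P`, in the plane: infinity does not return).
-/

set_option autoImplicit false

open Filter Topology Polynomial Metric Set MeasureTheory

namespace Pool.Agent.H47.RZ

open Pool.Agent.H44.Fatou (rat)
open Pool.Agent.H32.BT (IsCrit)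
open Pool.Agent.H61.TT (gg dg ww RatD)

/-- the map in the plane, infinity strictly preperiodic -/
structure RF (a b : Polynomial ℂ) (D : ℕ) (P F : Set ℂ) : Prop where
  rt : RatD D a b
  fi : ∃ p ∈ F, rat a b OnePoint.infty = (p : OnePoint ℂ)
  Pc : IsCompact P
  Pn : P.Nonempty
  Pb : ∀ z ∈ P, b.eval z ≠ 0
  Pf : ∀ z ∈ P, gg a b z ∈ P
  Ff : F.Finite
  Fb : ∀ z ∈ F, b.eval z ≠ 0
  Fi : ∀ z ∈ F, gg a b z ∈ F
  FP : Disjoint F P
  ci : ∀ c : OnePoint ℂ, IsCrit (rat a b) c → ∃ z : ℂ, c = (z : OnePoint ℂ) ∧ b.eval z ≠ 0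
  cv : ∀ c : ℂ, b.eval c ≠ 0 → (ww a b).eval c = 0 → gg a b c ∈ P ∧ (derivative (ww a b)).eval c ≠ 0
  leo : ∀ O : Set (OnePoint ℂ), IsOpen O → O.Nonempty → ∃ N : ℕ, ∀ n ≥ N, ∀ y, ∃ x ∈ O, (rat a b)^[n] x = y

end Pool.Agent.H47.RZ
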