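import Pool.Agent.H66.UX.RZC
import Pool.Agent.H66.UX.FIN
import Pool.Agent.H47.RZ.Defs
import Pool.Agent.H64.TP.Main
import Pool.Agent.H64.JS.COM

/-!
# [H47 RZ Ch] Julia set = sphere, the chart `em q` at a strictly preperiodic point

`Qs`: `q` is strictly preperiodic, its orbit is disjoint from `K`. `qs_ex`: such points exist if the post-critical set is not the sphere. `rf_ex`: the setting `RF` in the chart `em q`.
`rq_ci'`, `rq_sim'`: copies of `rq_ci`, `rq_sim` (H66/UX/RZB, RZC), the point `q` is not fixed, its image is off the post-critical set.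
-/

set_option autoImplicit false

open Filter Topology Polynomial Metric Set MeasureTheory

namespace Pool.Agent.H47.RZ

open Pool.Agent.H44.Fatou (rat rat_continuous rat_coe rat_coe_of_ne pt crit_coe)
open Pool.Agent.H32.BT Pool.Agent.H79.Eul Pool.Agent.H79.Par
open Pool.Agent.H35.EX Pool.Agent.H44.RR Pool.Agent.H56.HR Pool.Agent.H44.RC Pool.Agent.H47.RJ
open Pool.Agent.H47.NM Pool.Agent.H47.NN Pool.Agent.H44.ND Pool.Agent.H79.ES Pool.Agent.H44.RG
open Pool.Agent.H44.CP Pool.Agent.H47.PS Pool.Agent.H64.NC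
open Pool.Agent.H61.TT (gg dg ww RatD)
open Pool.Agent.H64.JS (KJ kj_inv)
open Pool.Agent.H64.TP (KK)
open Pool.Agent.H66.IL (em)
open Pool.Agent.H66.UX

variable {d D : ℕ} {v : E d} {q : ℂ} {N : ℕ} {φ : OnePoint ℂ ≃ₜ OnePoint ℂ} {A B : Polynomial ℂ}

private theorem em_ne {q w : ℂ} (hw : w ≠ 0) : em q w = ((q + 1 / w : ℂ) : OnePoint ℂ) := by
  unfold Pool.Agent.H66.IL.em
  rw [if_neg hw]

private theorem em_zero {q : ℂ} : em q 0 = OnePoint.infty := by
  unfold Pool.Agent.H66.IL.em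
  rw [if_pos rfl]

private theorem rq_loc (h : RQ v q N φ A B D) {w y : ℂ} (hB : B.eval w ≠ 0) (hw : w ≠ 0)
    (hy : (Rf v)^[N] ((q + 1 / w : ℂ) : OnePoint ℂ) = (y : OnePoint ℂ)) :
    y ≠ q ∧ gg A B w = 1 / (y - q) := by
  have h1 := rq_gg h hB
  rw [em_ne hw, hy] at h1
  by_cases g0 : gg A B w = 0
  · rw [g0, em_zero] at h1
    exact absurd h1 (OnePoint.coe_ne_infty y)
  · rw [em_ne g0] at h1
    have h2 : y = q + 1 / gg A B w := OnePoint.coe_injective h1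
    have h3 : y - q = 1 / gg A B w := by
      rw [h2]
      ring
    refine ⟨?_, ?_⟩
    · intro h4
      rw [h4, sub_self] at h3
      exact one_div_ne_zero g0 h3.symm
    · rw [h3, one_div_one_div]

/-- the derivative in the chart -/
private theorem dg_chart {G : ℂ → ℂ} {w : ℂ} (hB : B.eval w ≠ 0) (hw : w ≠ 0)
    (hG : DifferentiableAt ℂ G (q + 1 / w)) (hne : G (q + 1 / w) ≠ q)
    (he : gg A B =ᶠ[𝓝 w] fun u => 1 / (G (q + 1 / u) - q)) :
    dg A B w = deriv G (q + 1 / w) * (1 / ((G (q + 1 / w) - q) ^ 2 * w ^ 2)) := by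
  have h1 : HasDerivAt (gg A B) (dg A B w) w := Pool.Agent.H61.TT.hasDerivAt_gg hB
  have h2 : HasDerivAt (fun u : ℂ => q + 1 / u) (-(w ^ 2)⁻¹) w := by
    have h3 := (hasDerivAt_inv hw).const_add q
    simpa only [one_div] using h3
  have h3 : HasDerivAt (fun u : ℂ => G (q + 1 / u)) (deriv G (q + 1 / w) * -(w ^ 2)⁻¹) w :=
    HasDerivAt.comp w hG.hasDerivAt h2
  have h4 : G (q + 1 / w) - q ≠ 0 := sub_ne_zero.2 hne
  have h5 : HasDerivAt (fun u : ℂ => (G (q + 1 / u) - q)⁻¹)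
      (-(deriv G (q + 1 / w) * -(w ^ 2)⁻¹) / (G (q + 1 / w) - q) ^ 2) w := (h3.sub_const q).fun_inv h4
  have h6 : HasDerivAt (gg A B) (-(deriv G (q + 1 / w) * -(w ^ 2)⁻¹) / (G (q + 1 / w) - q) ^ 2) w := by
    refine h5.congr_of_eventuallyEq ?_
    simpa only [one_div] using he
  rw [h1.unique h6]
  field_simp

theorem rq_ci' (hcop : IsCoprime (pol v.1) (pol v.2)) (hJ : JS (Rf v) = univ) (h : RQ v q N φ A B D)
    (hq : (Rf v)^[N] (q : OnePoint ℂ) ∉ PCs v) (hP : (q : OnePoint ℂ) ∉ PCs v) {c : OnePoint ℂ}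
    (hc : IsCrit (rat A B) c) : ∃ z : ℂ, c = (z : OnePoint ℂ) ∧ B.eval z ≠ 0 ∧ em q (gg A B z) ∈ PCs v ∧
      ∃ j < N, IsCrit (Rf v) ((Rf v)^[j] (em q z)) := by
  obtain ⟨x, rfl⟩ := φ.surjective c
  have h1 : IsCrit (Rf v)^[N] x := (isCrit_conj φ h.cj x).1 hc
  have hcont : Continuous (Rf v) := rat_continuous hcop
  obtain ⟨j, hj, hcj⟩ := pw_crit hcont h1
  have h2 : (Rf v)^[N] x ∈ PCs v := by
    have h3 := pc_crit hJ hcj (n := N - j) (by omega)
    rw [← Function.iterate_add_apply] at h3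
    have h4 : N - j + j = N := by omega
    rwa [h4] at h3
  have hxq : x ≠ (q : OnePoint ℂ) := by
    rintro rfl
    exact hq h2
  have h3 : φ x ≠ OnePoint.infty := by
    intro h4
    rw [← h.fq] at h4
    exact hxq (φ.injective h4)
  obtain ⟨z, hz⟩ := OnePoint.ne_infty_iff_exists.1 h3
  have hx : x = em q z := by
    apply φ.injective
    rw [h.fe]
    exact hz.symm
  have h4 : B.eval z ≠ 0 := by
    intro h0
    rw [hx, rq_pole h h0] at h2
    exact hP h2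
  refine ⟨z, hz.symm, h4, ?_, j, hj, ?_⟩
  · rw [← rq_gg h h4, ← hx]
    exact h2
  · rw [← hx]
    exact hcj

theorem rq_sim' (hd : 2 ≤ d) (hcop : IsCoprime (pol v.1) (pol v.2))
    (hdeg : max (pol v.1).natDegree (pol v.2).natDegree = d) (hup : ¬ Up v) (hJ : JS (Rf v) = univ)
    (h0 : Rf v ((0 : ℂ) : OnePoint ℂ) = ((0 : ℂ) : OnePoint ℂ))
    (h1 : Rf v ((1 : ℂ) : OnePoint ℂ) = ((1 : ℂ) : OnePoint ℂ)) (hi : Rf v OnePoint.infty = OnePoint.infty)
    (h : RQ v q N φ A B D) (hq : (Rf v)^[N] (q : OnePoint ℂ) ∉ PCs v) (hP : (q : OnePoint ℂ) ∉ PCs v) {z : ℂ}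
    (hz : B.eval z ≠ 0) (hw : (ww A B).eval z = 0) : (derivative (ww A B)).eval z ≠ 0 := by
  have hinf : ∀ n, (Rf v)^[n] OnePoint.infty = OnePoint.infty := fun n => Function.iterate_fixed hi n
  have hcr : IsCrit (rat A B) (z : OnePoint ℂ) := by
    refine crit_of_wr h.rt.cop ?_ hw
    have h2 := h.rt.deg
    have h3 := h.rt.hd
    omega
  obtain ⟨z', hz1, -, -, j, hj, hcj⟩ := rq_ci' hcop hJ h hq hP hcr
  have hzz : z' = z := (OnePoint.coe_injective hz1).symm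
  rw [hzz] at hcj
  have hz0 : z ≠ 0 := by
    intro h2
    rw [h2, em_zero, hinf j] at hcj
    obtain ⟨y, hy⟩ := Pool.Agent.H66.UP.crit_pl hd hcop hdeg hup hJ hi hcj
    exact OnePoint.infty_ne_coe y hy
  obtain ⟨x0, hx0⟩ : ∃ x0 : ℂ, x0 = q + 1 / z := ⟨_, rfl⟩
  rw [em_ne hz0, ← hx0] at hcj
  have hxN : (Rf v)^[N] (x0 : OnePoint ℂ) ≠ OnePoint.infty := by
    intro h2
    have h3 : (Rf v)^[N - j] ((Rf v)^[j] (x0 : OnePoint ℂ)) = OnePoint.infty := by
      rw [← Function.iterate_add_apply]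
      have h4 : N - j + j = N := by omega
      rw [h4, h2]
    have h4 : (Rf v)^[N - j + 1] ((Rf v)^[j] (x0 : OnePoint ℂ)) = OnePoint.infty := by
      rw [Function.iterate_succ_apply', h3, hi]
    exact not_pre hd hcop hdeg hup hcj (by rw [hJ]; exact mem_univ _) (N - j) (N - j + 1) (Nat.lt_succ_self _)
      (by rw [h3, h4])
  obtain ⟨hf1, hf2⟩ := fin_orbs (a := pol v.1) (b := pol v.2) hi (n := N) (s := x0) hxN
  have hcj' : IsCrit (Rf v) (((gg (pol v.1) (pol v.2))^[j] x0 : ℂ) : OnePoint ℂ) := by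
    have h2 := hf2 j hj.le
    have h3 : (Rf v)^[j] (x0 : OnePoint ℂ) = (((gg (pol v.1) (pol v.2))^[j] x0 : ℂ) : OnePoint ℂ) := h2
    rw [← h3]
    exact hcj
  have hCr : Pool.Agent.H18.UP.Cr (pol v.1) (pol v.2) ((gg (pol v.1) (pol v.2))^[j] x0) := ⟨hf1 j hj, crit_coe hcj'⟩
  obtain ⟨hA, hA1, hA2, hA3⟩ := sim_it hd hcop hdeg hup hJ h0 h1 hi hxN hj hCr
  obtain ⟨G, hG⟩ : ∃ G : ℂ → ℂ, G = (gg (pol v.1) (pol v.2))^[N] := ⟨_, rfl⟩
  rw [← hG] at hA hA1 hA2 hA3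
  have hcx : ContinuousAt (fun w : ℂ => q + 1 / w) z := by
    refine continuousAt_const.add ?_
    exact continuousAt_const.div continuousAt_id hz0
  have hcx' : Tendsto (fun w : ℂ => q + 1 / w) (𝓝 z) (𝓝 x0) := by
    rw [hx0]
    exact hcx
  have e1 : ∀ᶠ w in 𝓝 z, w ≠ 0 := eventually_ne_nhds hz0
  have e2 : ∀ᶠ w in 𝓝 z, B.eval w ≠ 0 := B.continuous.continuousAt.eventually_ne hz
  have e3 : ∀ᶠ w in 𝓝 z, (Rf v)^[N] ((q + 1 / w : ℂ) : OnePoint ℂ) = ((G (q + 1 / w) : ℂ) : OnePoint ℂ) :=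
    hcx'.eventually hA3
  have e4 : ∀ᶠ w in 𝓝 z, AnalyticAt ℂ G (q + 1 / w) := hcx'.eventually hA.eventually_analyticAt
  have e5 : ∀ᶠ w in 𝓝 z, G (q + 1 / w) ≠ q ∧ gg A B w = 1 / (G (q + 1 / w) - q) := by
    filter_upwards [e1, e2, e3] with w h1 h2 h3
    exact rq_loc h h2 h1 h3
  have e6 : dg A B =ᶠ[𝓝 z] fun w => deriv G (q + 1 / w) * (1 / ((G (q + 1 / w) - q) ^ 2 * w ^ 2)) := by
    filter_upwards [e1, e2, e4, e5, e5.eventually_nhds] with w h1 h2 h4 h5 h6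
    refine dg_chart h2 h1 h4.differentiableAt h5.1 ?_
    filter_upwards [h6] with u hu
    exact hu.2
  have hne : G x0 ≠ q := by
    have h2 := e5.self_of_nhds.1
    rwa [← hx0] at h2
  have k1 : HasDerivAt (fun u : ℂ => q + 1 / u) (-(z ^ 2)⁻¹) z := by
    have h3 := (hasDerivAt_inv hz0).const_add q
    simpa only [one_div] using h3
  have k2 : HasDerivAt (fun u : ℂ => deriv G (q + 1 / u)) (deriv (deriv G) x0 * -(z ^ 2)⁻¹) z := by
    have h3 : HasDerivAt (deriv G) (deriv (deriv G) x0) (q + 1 / z) := by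
      rw [← hx0]
      exact hA.deriv.differentiableAt.hasDerivAt
    exact HasDerivAt.comp z h3 k1
  have k3 : DifferentiableAt ℂ (fun u : ℂ => 1 / ((G (q + 1 / u) - q) ^ 2 * u ^ 2)) z := by
    have h3 : DifferentiableAt ℂ (fun u : ℂ => G (q + 1 / u)) z := by
      have h4 : DifferentiableAt ℂ G (q + 1 / z) := by
        rw [← hx0]
        exact hA.differentiableAt
      exact DifferentiableAt.comp z h4 k1.differentiableAt
    have h5 : (G (q + 1 / z) - q) ^ 2 * z ^ 2 ≠ 0 := by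
      rw [← hx0]
      exact mul_ne_zero (pow_ne_zero 2 (sub_ne_zero.2 hne)) (pow_ne_zero 2 hz0)
    exact (differentiableAt_const 1).div (((h3.sub_const q).pow 2).mul (differentiableAt_id.pow 2)) h5
  have k4 := k2.mul k3.hasDerivAt
  have k5 : HasDerivAt (dg A B) (deriv (deriv G) x0 * -(z ^ 2)⁻¹ * (1 / ((G (q + 1 / z) - q) ^ 2 * z ^ 2)) +
      deriv G (q + 1 / z) * deriv (fun u : ℂ => 1 / ((G (q + 1 / u) - q) ^ 2 * u ^ 2)) z) z :=
    k4.congr_of_eventuallyEq e6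
  rw [← hx0, hA1, zero_mul, add_zero] at k5
  intro hww
  have k6 : HasDerivAt (dg A B) 0 z := by
    have h2 : HasDerivAt (fun u : ℂ => (ww A B).eval u) ((derivative (ww A B)).eval z) z := (ww A B).hasDerivAt z
    have h3 : HasDerivAt (fun u : ℂ => B.eval u ^ 2) _ z := (B.hasDerivAt z).pow 2
    have h4 := h2.div h3 (pow_ne_zero 2 hz)
    rw [hww, hw, zero_mul, zero_mul, sub_zero, zero_div] at h4
    exact h4
  have k7 := k5.unique k6
  refine absurd k7 ?_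
  refine mul_ne_zero (mul_ne_zero hA2 (neg_ne_zero.2 (inv_ne_zero (pow_ne_zero 2 hz0)))) (one_div_ne_zero ?_)
  exact mul_ne_zero (pow_ne_zero 2 (sub_ne_zero.2 hne)) (pow_ne_zero 2 hz0)


/-- `q` is strictly preperiodic, its orbit is disjoint from `K` -/
structure Qs (f : OnePoint ℂ → OnePoint ℂ) (K : Set (OnePoint ℂ)) (q : OnePoint ℂ) : Prop where
  nK : ∀ i : ℕ, f^[i] q ∉ K
  pp : ∃ k l : ℕ, 1 ≤ l ∧ f^[l + k] q = f^[k] q
  np : ∀ j : ℕ, 1 ≤ j → f^[j] q ≠ q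

theorem qs_ex (hd : 2 ≤ d) (hcop : IsCoprime (pol v.1) (pol v.2))
    (hdeg : max (pol v.1).natDegree (pol v.2).natDegree = d) (hup : ¬ Up v) (hJ : JS (Rf v) = univ)
    (hK : KK (Rf v) ≠ univ) : ∃ q : ℂ, Qs (Rf v) (KK (Rf v)) (q : OnePoint ℂ) := by
  have hcont : Continuous (Rf v) := rat_continuous hcop
  have hKc : IsClosed (KK (Rf v)) := isClosed_closure
  have hKf : ∀ x ∈ KK (Rf v), Rf v x ∈ KK (Rf v) := kj_inv hcont
  have hKi : ∀ n : ℕ, ∀ x ∈ KK (Rf v), (Rf v)^[n] x ∈ KK (Rf v) := by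
    intro n
    induction n with
    | zero => exact fun x hx => hx
    | succ n ih =>
      intro x hx
      rw [Function.iterate_succ_apply']
      exact hKf _ (ih x hx)
  obtain ⟨x0, hx0⟩ : ∃ x0, x0 ∉ KK (Rf v) := by
    by_contra hcon
    push Not at hcon
    exact hK (eq_univ_iff_forall.2 hcon)
  obtain ⟨p, hp, N, hN, hpN⟩ := Pool.Agent.H44.NR.per_dense hd hcop hdeg (x := x0) (hJ ▸ mem_univ x0)
    (hKc.isOpen_compl.mem_nhds hx0)
  obtain ⟨C, hC⟩ : ∃ C : Set (OnePoint ℂ), C = (fun i => (Rf v)^[i] p) '' (Finset.range N : Set ℕ) := ⟨_, rfl⟩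
  have hCf : C.Finite := hC ▸ (Finset.finite_toSet _).image _
  have hpC : ∀ i : ℕ, (Rf v)^[i] p ∈ C := by
    intro i
    rw [hC]
    refine ⟨i % N, ?_, ?_⟩
    · rw [Finset.mem_coe, Finset.mem_range]
      exact Nat.mod_lt _ (by omega)
    · exact Function.IsPeriodicPt.iterate_mod_apply (f := Rf v) (n := N) (x := p) hpN i
  have hOo : IsOpen ((KK (Rf v))ᶜ \ (C ∪ {OnePoint.infty})) :=
    hKc.isOpen_compl.sdiff (hCf.union (finite_singleton _)).isClosed
  have hOn : ((KK (Rf v))ᶜ \ (C ∪ {OnePoint.infty})).Nonempty :=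
    ((infinite_of_mem_nhds p (hKc.isOpen_compl.mem_nhds hp)).diff (hCf.union (finite_singleton _))).nonempty
  obtain ⟨n0, hn0⟩ := leo_s hd hcop hdeg hup hJ hOo hOn
  obtain ⟨q', ⟨hq1, hq2⟩, hq3⟩ := hn0 n0 le_rfl p
  rw [mem_union, not_or, mem_singleton_iff] at hq2
  obtain ⟨q, rfl⟩ := OnePoint.ne_infty_iff_exists.1 hq2.2
  refine ⟨q, ⟨?_, ⟨n0, N, hN, ?_⟩, ?_⟩⟩
  · intro i hi
    rcases Nat.lt_or_ge n0 i with h1 | h1
    · obtain ⟨k, rfl⟩ : ∃ k, i = k + n0 := ⟨i - n0, by omega⟩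
      rw [Function.iterate_add_apply, hq3] at hi
      have h2 := hKi (N * k - k) _ hi
      have h3 : N * k - k + k = N * k := Nat.sub_add_cancel (Nat.le_mul_of_pos_left k (by omega))
      rw [← Function.iterate_add_apply, h3, Function.iterate_mul, Function.iterate_fixed hpN] at h2
      exact hp h2
    · have h2 := hKi (n0 - i) _ hi
      rw [← Function.iterate_add_apply, Nat.sub_add_cancel h1, hq3] at h2
      exact hp h2
  · rw [Function.iterate_add_apply, hq3, hpN]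
  · intro j hj he
    apply hq2.1
    have h1 : (Rf v)^[j * n0] (q : OnePoint ℂ) = (q : OnePoint ℂ) := by
      rw [Function.iterate_mul]
      exact Function.iterate_fixed he n0
    have h2 : j * n0 - n0 + n0 = j * n0 := Nat.sub_add_cancel (Nat.le_mul_of_pos_left n0 (by omega))
    rw [← h2, Function.iterate_add_apply, hq3] at h1
    rw [← h1]
    exact hpC _

/-- the forward orbit of `q` in the chart -/
def Fq (v : E d) (q : ℂ) : Set ℂ := {w : ℂ | ∃ i : ℕ, 1 ≤ i ∧ em q w = (Rf v)^[i] (q : OnePoint ℂ)}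

theorem rf_ex (hd : 2 ≤ d) (hcop : IsCoprime (pol v.1) (pol v.2))
    (hdeg : max (pol v.1).natDegree (pol v.2).natDegree = d) (hup : ¬ Up v) (hJ : JS (Rf v) = univ)
    (h0 : Rf v ((0 : ℂ) : OnePoint ℂ) = ((0 : ℂ) : OnePoint ℂ))
    (h1 : Rf v ((1 : ℂ) : OnePoint ℂ) = ((1 : ℂ) : OnePoint ℂ)) (hi : Rf v OnePoint.infty = OnePoint.infty)
    (hq : Qs (Rf v) (KK (Rf v)) (q : OnePoint ℂ)) :
    ∃ (φ : OnePoint ℂ ≃ₜ OnePoint ℂ) (A B : Polynomial ℂ), RQ v q 1 φ A B d ∧ RF A B d (Pq v q) (Fq v q) ∧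
      ∀ w : ℂ, B.eval w ≠ 0 → Rf v (em q w) = em q (gg A B w) := by
  obtain ⟨φ, A, B, h⟩ := rq_ex hd hcop hdeg le_rfl q
  rw [pow_one] at h
  have hP : (q : OnePoint ℂ) ∉ PCs v := hq.nK 0
  have hq1 : (Rf v)^[1] (q : OnePoint ℂ) ∉ PCs v := hq.nK 1
  have hej : Function.Injective (em q) := by
    intro x y hxy
    have h2 := h.fe x
    rw [hxy, h.fe y] at h2
    exact (OnePoint.coe_injective h2).symm
  obtain ⟨h2, h3, h4⟩ := rq_P hd hcop hdeg hJ h hP
  have hgg : ∀ w : ℂ, B.eval w ≠ 0 → Rf v (em q w) = em q (gg A B w) := fun w hw => rq_gg h hw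
  refine ⟨φ, A, B, h, ⟨h.rt, ?_, h2, h3, fun z hz => (h4 z hz).1, fun z hz => (h4 z hz).2, ?_, ?_, ?_, ?_, ?_, ?_, ?_⟩, hgg⟩
  · have h5 : φ ((Rf v)^[1] (q : OnePoint ℂ)) ≠ OnePoint.infty := by
      intro h6
      rw [← h.fq] at h6
      exact hq.np 1 le_rfl (φ.injective h6)
    obtain ⟨w, hw⟩ := OnePoint.ne_infty_iff_exists.1 h5
    refine ⟨w, ⟨1, le_rfl, ?_⟩, ?_⟩
    · apply φ.injective
      rw [h.fe, hw]
    · rw [← h.fq, h.cj, hw]
  · obtain ⟨k, l, hl, hkl⟩ := hq.pp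
    have hfin : (range fun i : ℕ => (Rf v)^[i] (q : OnePoint ℂ)).Finite := by
      refine ((Finset.finite_toSet (Finset.range (k + l))).image fun i => (Rf v)^[i] (q : OnePoint ℂ)).subset ?_
      rintro _ ⟨i, rfl⟩
      induction i using Nat.strong_induction_on with
      | _ i ih =>
        rcases Nat.lt_or_ge i (k + l) with h5 | h5
        · exact ⟨i, Finset.mem_coe.2 (Finset.mem_range.2 h5), rfl⟩
        · obtain ⟨m, rfl⟩ : ∃ m, i = m + (l + k) := ⟨i - (l + k), by omega⟩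
          have h6 := ih (m + k) (by omega)
          have h7 : (Rf v)^[m + (l + k)] (q : OnePoint ℂ) = (Rf v)^[m + k] (q : OnePoint ℂ) := by
            rw [Function.iterate_add_apply, hkl, ← Function.iterate_add_apply]
          show (Rf v)^[m + (l + k)] (q : OnePoint ℂ) ∈ _
          rw [h7]
          exact h6
    refine (hfin.preimage hej.injOn).subset ?_
    rintro w ⟨i, -, hw⟩
    exact ⟨i, hw.symm⟩
  · rintro z ⟨i, hi1, hz⟩ hB
    have h5 := rq_pole h hB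
    rw [hz] at h5
    have h6 : (Rf v)^[1 + i] (q : OnePoint ℂ) = (q : OnePoint ℂ) := by
      rw [Function.iterate_add_apply]
      exact h5
    exact hq.np (1 + i) (by omega) h6
  · rintro z ⟨i, hi1, hz⟩
    have hB : B.eval z ≠ 0 := by
      intro hB
      have h5 := rq_pole h hB
      rw [hz] at h5
      have h6 : (Rf v)^[1 + i] (q : OnePoint ℂ) = (q : OnePoint ℂ) := by
        rw [Function.iterate_add_apply]
        exact h5
      exact hq.np (1 + i) (by omega) h6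
    refine ⟨i + 1, by omega, ?_⟩
    rw [← hgg z hB, hz, Function.iterate_succ_apply']
  · rw [Set.disjoint_left]
    rintro z ⟨i, -, hz⟩ hzP
    have h5 : em q z ∈ KK (Rf v) := hzP
    rw [hz] at h5
    exact hq.nK i h5
  · intro c hc
    obtain ⟨z, h5, h6, -⟩ := rq_ci' hcop hJ h hq1 hP hc
    exact ⟨z, h5, h6⟩
  · intro c hc hw
    refine ⟨?_, rq_sim' hd hcop hdeg hup hJ h0 h1 hi h hq1 hP hc hw⟩
    have hd1 : 1 ≤ max A.natDegree B.natDegree := by
      rw [h.rt.deg]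
      omega
    obtain ⟨z, h5, -, h6, -⟩ := rq_ci' hcop hJ h hq1 hP (crit_of_wr h.rt.cop hd1 hw)
    rw [OnePoint.coe_injective h5]
    exact h6
  · exact fun O hO hn => rq_leo hd hcop hdeg hup hJ h le_rfl hO hn

end Pool.Agent.H47.RZ
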