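import Pool.Agent.H47.RZ.Js
import Pool.Agent.H47.RZ.Ch
import Pool.Agent.H56.END.Chm
import Pool.Agent.H78.UX.FO

/-!
# [H47 RZ Fin] Julia set = sphere: `PG` and `FG` in the chart at a strictly preperiodic point

`cy_q`: two cycles off the orbit of `q`. `pgq`: the planar setting `PG` with `P` = the post-critical set. `pge`: `PG` and `FG` for given fields whose typical points tend to a piece of the post-critical set.
-/

set_option autoImplicit false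

open Filter Topology Polynomial Metric Set MeasureTheory

namespace Pool.Agent.H47.RZ

open Pool.Agent.H44.Fatou (rat rat_continuous rat_coe rat_coe_of_ne pt crit_coe)
open Pool.Agent.H32.BT Pool.Agent.H79.Eul Pool.Agent.H79.Par
open Pool.Agent.H35.EX Pool.Agent.H44.RR Pool.Agent.H56.HR Pool.Agent.H44.RC Pool.Agent.H47.RJ
open Pool.Agent.H47.NM Pool.Agent.H47.NN Pool.Agent.H44.ND Pool.Agent.H79.ES Pool.Agent.H44.RG
open Pool.Agent.H44.CP Pool.Agent.H47.PS Pool.Agent.H64.NC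
open Pool.Agent.H61.TT (gg dg ww RatD)
open Pool.Agent.H64.JS (KJ kj_inv)
open Pool.Agent.H64.TP (KK)
open Pool.Agent.H66.IL (em SFX)
open Pool.Agent.H66.UX
open Pool.Agent.H66.SP (PG FG)
open Pool.Agent.H56.END (MnS)

variable {d : ℕ} {v : E d} {q : ℂ}

/-- the orbit -/
def Ob (f : OnePoint ℂ → OnePoint ℂ) (p : OnePoint ℂ) : Set (OnePoint ℂ) := range fun i : ℕ => f^[i] p

theorem ob_fin {f : OnePoint ℂ → OnePoint ℂ} {p : OnePoint ℂ} {k l : ℕ} (hl : 1 ≤ l) (h : f^[l + k] p = f^[k] p) :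
    (Ob f p).Finite := by
  refine ((Finset.finite_toSet (Finset.range (k + l))).image fun i => f^[i] p).subset ?_
  rintro _ ⟨i, rfl⟩
  induction i using Nat.strong_induction_on with
  | _ i ih =>
    rcases Nat.lt_or_ge i (k + l) with h5 | h5
    · exact ⟨i, Finset.mem_coe.2 (Finset.mem_range.2 h5), rfl⟩
    · obtain ⟨m, rfl⟩ : ∃ m, i = m + (l + k) := ⟨i - (l + k), by omega⟩
      have h6 := ih (m + k) (by omega)
      have h7 : f^[m + (l + k)] p = f^[m + k] p := by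
        rw [Function.iterate_add_apply, h, ← Function.iterate_add_apply]
      show f^[m + (l + k)] p ∈ _
      rw [h7]
      exact h6

theorem ob_per {f : OnePoint ℂ → OnePoint ℂ} {p x : OnePoint ℂ} {N : ℕ} (hN : 1 ≤ N) (h : f^[N] p = p) {i : ℕ}
    (hx : f^[i] p ∈ Ob f x) : p ∈ Ob f x := by
  obtain ⟨j, hj⟩ := hx
  have hj' : f^[j] x = f^[i] p := hj
  have h3 : N * i - i + i = N * i := Nat.sub_add_cancel (Nat.le_mul_of_pos_left i (by omega))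
  refine ⟨N * i - i + j, ?_⟩
  show f^[N * i - i + j] x = p
  rw [Function.iterate_add_apply, hj', ← Function.iterate_add_apply, h3, Function.iterate_mul]
  exact Function.iterate_fixed h i

theorem per_off (hd : 2 ≤ d) (hcop : IsCoprime (pol v.1) (pol v.2))
    (hdeg : max (pol v.1).natDegree (pol v.2).natDegree = d) (hJ : JS (Rf v) = univ) {S0 : Set (OnePoint ℂ)} (hS : S0.Finite) :
    ∃ p, p ∉ S0 ∧ ∃ N : ℕ, 1 ≤ N ∧ (Rf v)^[N] p = p := by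
  have h1 : (S0ᶜ).Nonempty := ((infinite_of_mem_nhds (((0 : ℂ) : OnePoint ℂ)) Filter.univ_mem).sdiff hS).nonempty.mono
    fun x hx => hx.2
  obtain ⟨x, hx⟩ := h1
  obtain ⟨p, hp, N, hN, hpN⟩ := Pool.Agent.H44.NR.per_dense hd hcop hdeg (x := x) (hJ ▸ mem_univ x)
    (hS.isClosed.isOpen_compl.mem_nhds hx)
  exact ⟨p, hp, N, hN, hpN⟩

theorem cy_q (hd : 2 ≤ d) (hcop : IsCoprime (pol v.1) (pol v.2))
    (hdeg : max (pol v.1).natDegree (pol v.2).natDegree = d) (hJ : JS (Rf v) = univ)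
    (hq : Qs (Rf v) (KK (Rf v)) (q : OnePoint ℂ)) {φ : OnePoint ℂ ≃ₜ OnePoint ℂ} {A B : Polynomial ℂ} (h : RQ v q 1 φ A B d) :
    ∃ C : Set ℂ, Cy A B (Fq v q) C := by
  obtain ⟨k, l, hl, hkl⟩ := hq.pp
  have hOq := ob_fin hl hkl
  obtain ⟨p1, hp1, N1, hN1, hpN1⟩ := per_off hd hcop hdeg hJ hOq
  have hO1 : (Ob (Rf v) p1).Finite := ob_fin (k := 0) hN1 (by simpa using hpN1)
  obtain ⟨p2, hp2, N2, hN2, hpN2⟩ := per_off hd hcop hdeg hJ (hOq.union hO1)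
  have hO2 : (Ob (Rf v) p2).Finite := ob_fin (k := 0) hN2 (by simpa using hpN2)
  have hgg : ∀ w : ℂ, B.eval w ≠ 0 → Rf v (em q w) = em q (gg A B w) := fun w hw => rq_gg h hw
  have hej : Function.Injective (em q) := by
    intro x y hxy
    have h2 := h.fe x
    rw [hxy, h.fe y] at h2
    exact (OnePoint.coe_injective h2).symm
  obtain ⟨T, hT⟩ : ∃ T : Set (OnePoint ℂ), T = Ob (Rf v) p1 ∪ Ob (Rf v) p2 := ⟨_, rfl⟩
  have hTq : ∀ x ∈ T, x ∉ Ob (Rf v) (q : OnePoint ℂ) := by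
    intro x hx hxq
    rw [hT] at hx
    rcases hx with ⟨i, rfl⟩ | ⟨i, rfl⟩
    · exact hp1 (ob_per hN1 hpN1 hxq)
    · exact hp2 (Or.inl (ob_per hN2 hpN2 hxq))
  have hTi : ∀ x ∈ T, Rf v x ∈ T := by
    intro x hx
    rw [hT] at hx ⊢
    rcases hx with ⟨i, rfl⟩ | ⟨i, rfl⟩
    · exact Or.inl ⟨i + 1, Function.iterate_succ_apply' _ _ _⟩
    · exact Or.inr ⟨i + 1, Function.iterate_succ_apply' _ _ _⟩
  have hqq : (q : OnePoint ℂ) ∈ Ob (Rf v) (q : OnePoint ℂ) := ⟨0, rfl⟩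
  have hCU : ∀ w : ℂ, em q w ∈ T → B.eval w ≠ 0 := by
    intro w hw hB
    have h5 : Rf v (em q w) = (q : OnePoint ℂ) := rq_pole h hB
    have h6 := hTq _ (hTi _ hw)
    rw [h5] at h6
    exact h6 hqq
  have hCi : ∀ w : ℂ, em q w ∈ T → em q (gg A B w) ∈ T := by
    intro w hw
    rw [← hgg w (hCU w hw)]
    exact hTi _ hw
  have hit : ∀ w : ℂ, em q w ∈ T → ∀ n : ℕ, em q ((gg A B)^[n] w) = (Rf v)^[n] (em q w) ∧ em q ((gg A B)^[n] w) ∈ T := by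
    intro w hw n
    induction n with
    | zero => exact ⟨rfl, hw⟩
    | succ n ih =>
      rw [Function.iterate_succ_apply', Function.iterate_succ_apply']
      exact ⟨by rw [← hgg _ (hCU _ ih.2), ih.1], hCi _ ih.2⟩
  have hfin : ∀ x ∈ T, ∃ w : ℂ, em q w = x := by
    intro x hx
    have h2 : φ x ≠ OnePoint.infty := by
      intro h3
      rw [← h.fq] at h3
      rw [φ.injective h3] at hx
      exact hTq _ hx hqq
    obtain ⟨w, hw⟩ := OnePoint.ne_infty_iff_exists.1 h2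
    refine ⟨w, ?_⟩
    apply φ.injective
    rw [h.fe, hw]
  have hp1T : p1 ∈ T := hT ▸ Or.inl ⟨0, rfl⟩
  have hp2T : p2 ∈ T := hT ▸ Or.inr ⟨0, rfl⟩
  obtain ⟨w1, hw1⟩ := hfin p1 hp1T
  obtain ⟨w2, hw2⟩ := hfin p2 hp2T
  have hCf : {w : ℂ | em q w ∈ T}.Finite := (hT ▸ hO1.union hO2 : T.Finite).preimage hej.injOn
  have hne : ∀ n : ℕ, (gg A B)^[n] w1 ≠ (gg A B)^[n] w2 := by
    intro n he
    have h2 := (hit w1 (hw1 ▸ hp1T) n).1
    have h3 := (hit w2 (hw2 ▸ hp2T) n).1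
    rw [he, h3, hw1, hw2] at h2
    refine hp2 (Or.inr (ob_per hN2 hpN2 (i := n) ?_))
    rw [h2]
    exact ⟨n, rfl⟩
  have hm1 : ∀ n : ℕ, (gg A B)^[n] w1 ∈ {w : ℂ | em q w ∈ T} := fun n => (hit w1 (hw1 ▸ hp1T) n).2
  have hm2 : ∀ n : ℕ, (gg A B)^[n] w2 ∈ {w : ℂ | em q w ∈ T} := fun n => (hit w2 (hw2 ▸ hp2T) n).2
  have hnt : {w : ℂ | em q w ∈ T}.Nontrivial := ⟨_, hm1 0, _, hm2 0, hne 0⟩
  refine ⟨{w : ℂ | em q w ∈ T}, hCf, fun w hw => hCU w hw, fun w hw => hCi w hw, ?_, ?_⟩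
  · rw [Set.disjoint_left]
    rintro w hw ⟨i, -, hwi⟩
    have h2 : em q w ∈ T := hw
    rw [hwi] at h2
    exact hTq _ h2 ⟨i, rfl⟩
  · refine ⟨{w : ℂ | em q w ∈ T}.infsep, Set.infsep_pos.2 ⟨hCf.einfsep_pos, hnt.einfsep_lt_top⟩, fun n => ?_⟩
    refine ⟨w1, hm1 0, w2, hm2 0, ?_⟩
    rw [← dist_eq_norm]
    exact (hnt.le_infsep_iff.1 le_rfl) _ (hm1 n) _ (hm2 n) (hne n)

/-- the critical points -/
theorem cr_q (hd : 2 ≤ d) (hcop : IsCoprime (pol v.1) (pol v.2)) (hJ : JS (Rf v) = univ)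
    (hCK : ∀ c, IsCrit (Rf v) c → c ∈ KK (Rf v)) (hq : Qs (Rf v) (KK (Rf v)) (q : OnePoint ℂ))
    {φ : OnePoint ℂ ≃ₜ OnePoint ℂ} {A B : Polynomial ℂ} (h : RQ v q 1 φ A B d) : CrS A B ⊆ Pq v q := by
  intro c hc
  have hd1 : 1 ≤ max A.natDegree B.natDegree := by
    rw [h.rt.deg]
    omega
  obtain ⟨z, h5, -, -, j, hj, hcj⟩ := rq_ci' hcop hJ h (hq.nK 1) (hq.nK 0) (crit_of_wr h.rt.cop hd1 hc.2)
  obtain rfl : j = 0 := by omega
  have h6 : c = z := OnePoint.coe_injective h5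
  rw [h6]
  exact hCK _ hcj

theorem pgq (hd : 2 ≤ d) (hcop : IsCoprime (pol v.1) (pol v.2))
    (hdeg : max (pol v.1).natDegree (pol v.2).natDegree = d) (hup : ¬ Up v) (hJ : JS (Rf v) = univ)
    (h0 : Rf v ((0 : ℂ) : OnePoint ℂ) = ((0 : ℂ) : OnePoint ℂ))
    (h1 : Rf v ((1 : ℂ) : OnePoint ℂ) = ((1 : ℂ) : OnePoint ℂ)) (hi : Rf v OnePoint.infty = OnePoint.infty)
    (hCK : ∀ c, IsCrit (Rf v) c → c ∈ KK (Rf v)) (q : ℂ) (hq : Qs (Rf v) (KK (Rf v)) (q : OnePoint ℂ)) :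
    ∃ A B : Polynomial ℂ, RatD d A B ∧
      (∀ w : ℂ, B.eval w ≠ 0 → Rf v (em q w) = em q (gg A B w)) ∧ CrS A B ⊆ Pq v q ∧
      ∃ (J : Set ℂ) (δ : ℝ) (η : ℂ → ℂ → ℂ) (ρ : ℝ), PG (gg A B) (UP B) J (Pq v q) (CrS A B) δ η ρ := by
  obtain ⟨φ, A, B, hRQ, hRF, he⟩ := rf_ex hd hcop hdeg hup hJ h0 h1 hi hq
  obtain ⟨C, hC⟩ := cy_q hd hcop hdeg hJ hq hRQ
  have hCP := cr_q hd hcop hJ hCK hq hRQ
  obtain ⟨δ0, hδ0, hpg⟩ := pg_cy hRF hCP hC (J := Pq v q) hRF.Pc Subset.rfl (fun z hz => hRF.Pb z hz) hRF.Pf hRF.FP.symm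
  obtain ⟨η, ρ, hPG⟩ := hpg δ0 hδ0 le_rfl
  exact ⟨A, B, hRF.rt, he, hCP, _, δ0, η, ρ, hPG⟩

/-- a point near a bounded point in the chordal metric -/
theorem ch_near {R s : ℝ} {w p : ℂ} (hp : ‖p‖ ≤ R) (hs : s * (1 + R) ≤ 1 / 2)
    (h : chord (w : OnePoint ℂ) (p : OnePoint ℂ) ≤ s) : ‖w - p‖ ≤ 2 * s * (1 + R) ^ 2 := by
  have hR : 0 ≤ R := (norm_nonneg p).trans hp
  have hs0 : 0 ≤ s := (chord_nn _ _).trans h
  change ‖w - p‖ / (√(1 + ‖w‖ ^ 2) * √(1 + ‖p‖ ^ 2)) ≤ s at h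
  have e1 : √(1 + ‖w‖ ^ 2) ≤ 1 + ‖w‖ := by
    rw [Real.sqrt_le_left (by positivity)]
    nlinarith [norm_nonneg w]
  have e2 : √(1 + ‖p‖ ^ 2) ≤ 1 + R := by
    refine le_trans ?_ (add_le_add_right hp 1)
    rw [Real.sqrt_le_left (by positivity)]
    nlinarith [norm_nonneg p]
  have e3 : 0 < √(1 + ‖w‖ ^ 2) * √(1 + ‖p‖ ^ 2) := by positivity
  rw [div_le_iff₀ e3] at h
  have e4 : √(1 + ‖w‖ ^ 2) * √(1 + ‖p‖ ^ 2) ≤ (1 + ‖w‖) * (1 + R) := mul_le_mul e1 e2 (by positivity) (by positivity)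
  have e5 : ‖w‖ ≤ ‖w - p‖ + R := by
    have := norm_add_le (w - p) p
    rw [sub_add_cancel] at this
    linarith
  have e6 : ‖w - p‖ ≤ s * ((1 + (‖w - p‖ + R)) * (1 + R)) := by
    refine h.trans (mul_le_mul_of_nonneg_left (e4.trans ?_) hs0)
    exact mul_le_mul_of_nonneg_right (by linarith) (by linarith)
  have e7 : s * ((1 + (‖w - p‖ + R)) * (1 + R)) = s * (1 + R) * ‖w - p‖ + s * (1 + R) ^ 2 := by ring
  rw [e7] at e6
  have e8 : s * (1 + R) * ‖w - p‖ ≤ 1 / 2 * ‖w - p‖ := mul_le_mul_of_nonneg_right hs (norm_nonneg _)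
  linarith

theorem pge (hd : 2 ≤ d) (hcop : IsCoprime (pol v.1) (pol v.2))
    (hdeg : max (pol v.1).natDegree (pol v.2).natDegree = d) (hup : ¬ Up v) (hJ : JS (Rf v) = univ)
    (h0 : Rf v ((0 : ℂ) : OnePoint ℂ) = ((0 : ℂ) : OnePoint ℂ))
    (h1 : Rf v ((1 : ℂ) : OnePoint ℂ) = ((1 : ℂ) : OnePoint ℂ)) (hi : Rf v OnePoint.infty = OnePoint.infty)
    (hCK : ∀ c, IsCrit (Rf v) c → c ∈ KK (Rf v)) (q : ℂ) (hq : Qs (Rf v) (KK (Rf v)) (q : OnePoint ℂ)) :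
    ∃ A B : Polynomial ℂ, RatD d A B ∧
      (∀ w : ℂ, B.eval w ≠ 0 → Rf v (em q w) = em q (gg A B w)) ∧ CrS A B ⊆ Pq v q ∧
      ∀ (S : Set (OnePoint ℂ)), MnS (Rf v) (KK (Rf v)) S → ∀ (n : ℕ) (E : Set ℂ) (X hh μ : Fin n → ℂ → ℂ) (i0 : Fin n) (b0 : ℝ),
      SFX (gg A B) (UP B) E n X hh μ i0 b0 →
      (∀ z ∈ E, ∀ ε : ℝ, 0 < ε → ∀ᶠ n : ℕ in atTop, ∃ p ∈ S, chord ((Rf v)^[n] (em q z)) p < ε) →
      ∃ (J E' : Set ℂ) (δ : ℝ) (η : ℂ → ℂ → ℂ) (ρ : ℝ), E' ⊆ E ∧ PG (gg A B) (UP B) J (Pq v q) (CrS A B) δ η ρ ∧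
        FG (gg A B) (UP B) J E' δ (X i0) (hh i0) (μ i0) b0 ∧ ∀ z ∈ E', ∀ k : ℕ, (gg A B)^[k] z ∉ CrS A B := by
  obtain ⟨φ, A, B, hRQ, hRF, he⟩ := rf_ex hd hcop hdeg hup hJ h0 h1 hi hq
  obtain ⟨C, hC⟩ := cy_q hd hcop hdeg hJ hq hRQ
  have hCP := cr_q hd hcop hJ hCK hq hRQ
  refine ⟨A, B, hRF.rt, he, hCP, fun S hS n E X hh μ i0 b0 hX hE => ?_⟩
  obtain ⟨ψ, K, hK, bil, hψ⟩ := Pool.Agent.H78.UX.em_hom hd q
  have hψe : ∀ w : ℂ, ψ (em q w) = (w : OnePoint ℂ) := fun w => by rw [← hψ, ψ.apply_symm_apply]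
  obtain ⟨R, hR⟩ := hRF.Pc.isBounded.exists_norm_le
  have hRn : 0 ≤ R := by
    obtain ⟨x, hx⟩ := hRF.Pn
    exact (norm_nonneg x).trans (hR x hx)
  have hfin : ∀ x ∈ KK (Rf v), ∃ w : ℂ, em q w = x := by
    intro x hx
    have h2 : φ x ≠ OnePoint.infty := by
      intro h3
      rw [← hRQ.fq] at h3
      rw [φ.injective h3] at hx
      exact hq.nK 0 hx
    obtain ⟨w, hw⟩ := OnePoint.ne_infty_iff_exists.1 h2
    refine ⟨w, ?_⟩
    apply φ.injective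
    rw [hRQ.fe, hw]
  have hE' : ∀ z ∈ E, (∀ k : ℕ, (gg A B)^[k] z ∈ UP B) → ∀ ε : ℝ, 0 < ε →
      ∀ᶠ k : ℕ in atTop, ∃ p ∈ Pq v q, ‖(gg A B)^[k] z - p‖ < ε := by
    intro z hz hzU ε hε
    obtain ⟨s, hs⟩ : ∃ s : ℝ, s = min (1 / (2 * (1 + R))) (ε / (4 * (1 + R) ^ 2)) := ⟨_, rfl⟩
    have hs0 : 0 < s := hs ▸ lt_min (by positivity) (by positivity)
    have hs1 : s * (1 + R) ≤ 1 / 2 := by
      have h2 : s ≤ 1 / (2 * (1 + R)) := hs ▸ min_le_left _ _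
      rw [le_div_iff₀ (by positivity)] at h2
      linarith
    have hs2 : 2 * s * (1 + R) ^ 2 < ε := by
      have h2 : s ≤ ε / (4 * (1 + R) ^ 2) := hs ▸ min_le_right _ _
      rw [le_div_iff₀ (by positivity)] at h2
      linarith
    have hit : ∀ k : ℕ, (Rf v)^[k] (em q z) = em q ((gg A B)^[k] z) := by
      intro k
      induction k with
      | zero => rfl
      | succ k ih => rw [Function.iterate_succ_apply', Function.iterate_succ_apply', ih, he _ (hzU k)]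
    filter_upwards [hE z hz (s / K) (by positivity)] with k hk
    obtain ⟨x, hxS, hx⟩ := hk
    obtain ⟨p, hp⟩ := hfin x (hS.sub hxS)
    have hpP : p ∈ Pq v q := by
      show em q p ∈ PCs v
      rw [hp]
      exact hS.sub hxS
    refine ⟨p, hpP, ?_⟩
    have h2 := (bil (em q ((gg A B)^[k] z)) (em q p)).1
    rw [hψe, hψe] at h2
    rw [hit k, ← hp] at hx
    have h3 : chord (((gg A B)^[k] z : ℂ) : OnePoint ℂ) (p : OnePoint ℂ) ≤ s := by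
      refine h2.trans ?_
      rw [lt_div_iff₀ hK] at hx
      linarith
    exact (ch_near (hR p hpP) hs1 h3).trans_lt hs2
  obtain ⟨J, E', δ0, hEE, hδ0, -, hEC, -, -, hFG⟩ := fg_rf hRF hCP hC hX hE'
  obtain ⟨η, ρ, hPG, hFG⟩ := hFG δ0 hδ0 le_rfl
  exact ⟨J, E', δ0, η, ρ, hEE, hPG, hFG, hEC⟩

end Pool.Agent.H47.RZ
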