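import Pool.Agent.H66.UX.NCS

/-!
# [H47 RZ Nc] no cones: the field cannot be rescaled along inverse branches

Copy of `hol_ext`, `nc_s` (H66/UX/NCS) where the exactness is known outside a finite set `F` only (at the points of `F` the continuous field is holomorphic by the removable singularity theorem).
-/

set_option autoImplicit false

open Filter Topology Metric Set MeasureTheory

namespace Pool.Agent.H47.RZ

open Pool.Agent.H78.UX (oU)
open Pool.Agent.H66.IL (SFX)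
open Pool.Agent.H66.UX (it_eq)

variable {f : ℂ → ℂ} {U F E : Set ℂ}

private theorem hol_pt (hUo : IsOpen U) (hfd : DifferentiableOn ℂ f U) (hFf : F.Finite)
    (hleo : ∀ O : Set ℂ, IsOpen O → O.Nonempty → ∃ N : ℕ, ∀ n ≥ N, ∀ y : ℂ, y ∉ F → ∃ x ∈ O, x ∈ oU f U n ∧ f^[n] x = y) {X hh : ℂ → ℂ} (hX : Continuous X) (hhd : DifferentiableOn ℂ hh U)
    (he : ∀ z ∈ U, X (f z) = deriv f z * X z + hh z) {y : ℂ} {r : ℝ} (hr : 0 < r) (hd : DifferentiableOn ℂ X (ball y r)) {w : ℂ} (hw : w ∉ F) :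
    DifferentiableAt ℂ X w := by
  obtain ⟨N, hN⟩ := hleo (ball y r) isOpen_ball ⟨y, mem_ball_self hr⟩
  obtain ⟨x, hx1, hx2, hx3⟩ := hN N le_rfl w hw
  obtain ⟨hO, hF, H, hH, hE⟩ := it_eq hUo hfd hhd he N
  have hO1 : IsOpen (ball y r ∩ oU f U N) := isOpen_ball.inter hO
  have hFa : ∀ x' ∈ ball y r ∩ oU f U N, AnalyticAt ℂ f^[N] x' := fun x' hx' =>
    hF.analyticAt (hO.mem_nhds hx'.2)
  -- `X ∘ F` is differentiable on the open set
  have hXF : ∀ x' ∈ ball y r ∩ oU f U N, DifferentiableAt ℂ (fun v => X (f^[N] v)) x' := by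
    intro x' hx'
    have e1 : DifferentiableAt ℂ (fun v => deriv f^[N] v * X v + H v) x' :=
      (((hFa x' hx').deriv.differentiableAt).mul
        ((hd x' hx'.1).differentiableAt (isOpen_ball.mem_nhds hx'.1))).add
        ((hH x' hx'.2).differentiableAt (hO.mem_nhds hx'.2))
    refine e1.congr_of_eventuallyEq ?_
    filter_upwards [hO.mem_nhds hx'.2] with v hv
    exact hE v hv
  -- `F` is not constant near `x`
  have hnc : ¬ ∀ᶠ z in 𝓝 x, f^[N] z = f^[N] x := by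
    intro hcon
    obtain ⟨r2, hr2, hr3⟩ := Metric.eventually_nhds_iff_ball.1 hcon
    obtain ⟨N', hN'⟩ := hleo (ball x r2) isOpen_ball ⟨x, mem_ball_self hr2⟩
    obtain ⟨p1, hp1⟩ := hFf.infinite_compl.nonempty
    obtain ⟨p2, hp2⟩ := (hFf.insert p1).infinite_compl.nonempty
    have hp12 : p2 ≠ p1 := fun he => hp2 (he ▸ mem_insert _ _)
    obtain ⟨a, ha1, -, ha2⟩ := hN' (N' + N) (by omega) p1 hp1
    obtain ⟨b, hb1, -, hb2⟩ := hN' (N' + N) (by omega) p2 fun hF => hp2 (mem_insert_of_mem _ hF)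
    rw [Function.iterate_add_apply, hr3 a ha1] at ha2
    rw [Function.iterate_add_apply, hr3 b hb1, ha2] at hb2
    exact hp12 hb2.symm
  have hxO : x ∈ ball y r ∩ oU f U N := ⟨hx1, hx2⟩
  have hopen : 𝓝 w ≤ map f^[N] (𝓝 x) := by
    have h1 := (hFa x hxO).eventually_constant_or_nhds_le_map_nhds.resolve_left hnc
    rwa [hx3] at h1
  have hdne : ∀ᶠ z in 𝓝[≠] x, deriv f^[N] z ≠ 0 := by
    refine (hFa x hxO).deriv.eventually_eq_zero_or_eventually_ne_zero.resolve_left fun hz => hnc ?_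
    obtain ⟨r2, hr2, hr3⟩ := Metric.eventually_nhds_iff_ball.1 (hz.and (hO1.mem_nhds hxO))
    refine Metric.eventually_nhds_iff_ball.2 ⟨r2, hr2, fun v hv => ?_⟩
    exact isOpen_ball.is_const_of_deriv_eq_zero (convex_ball x r2).isPreconnected
      (fun z hz' => (hFa z (hr3 z hz').2).differentiableAt.differentiableWithinAt)
      (fun z hz' => (hr3 z hz').1) hv (mem_ball_self hr2)
  -- differentiable near `w`
  have hpt : ∀ᶠ w' in 𝓝[≠] w, DifferentiableAt ℂ X w' := by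
    rw [eventually_nhdsWithin_iff] at hdne ⊢
    have hO3 : {x' | x' ∈ ball y r ∩ oU f U N ∧ (x' ∈ ({x}ᶜ : Set ℂ) → deriv f^[N] x' ≠ 0)} ∈ 𝓝 x := by
      filter_upwards [hO1.mem_nhds hxO, hdne] with v h1 h2
      exact ⟨h1, h2⟩
    have hIm := hopen (image_mem_map hO3)
    filter_upwards [hIm] with w' hw' hne
    obtain ⟨x', ⟨hx'1, hx'2⟩, rfl⟩ := hw'
    have hxx : x' ∈ ({x}ᶜ : Set ℂ) := by
      intro hq
      rw [mem_singleton_iff] at hq
      subst hq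
      exact hne hx3
    have hd0 := hx'2 hxx
    have hsd : HasStrictDerivAt f^[N] (deriv f^[N] x') x' := (hFa x' hx'1).hasStrictDerivAt
    have hGd := (hsd.to_localInverse hd0).hasDerivAt.differentiableAt
    have hG0 : hsd.localInverse _ _ _ hd0 (f^[N] x') = x' := (hsd.eventually_left_inverse hd0).self_of_nhds
    have hcomp : DifferentiableAt ℂ (fun v => X (f^[N] (hsd.localInverse _ _ _ hd0 v))) (f^[N] x') := by
      refine DifferentiableAt.comp (g := fun v => X (f^[N] v)) (f^[N] x') ?_ hGd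
      rw [hG0]
      exact hXF x' hx'1
    refine hcomp.congr_of_eventuallyEq ?_
    filter_upwards [hsd.eventually_right_inverse hd0] with v hv
    rw [hv]
  exact (Complex.analyticAt_of_differentiable_on_punctured_nhds_of_continuousAt hpt
    hX.continuousAt).differentiableAt

theorem hol_ext (hUo : IsOpen U) (hfd : DifferentiableOn ℂ f U) (hFf : F.Finite)
    (hleo : ∀ O : Set ℂ, IsOpen O → O.Nonempty → ∃ N : ℕ, ∀ n ≥ N, ∀ y : ℂ, y ∉ F → ∃ x ∈ O, x ∈ oU f U n ∧ f^[n] x = y) {X hh : ℂ → ℂ} (hX : Continuous X) (hhd : DifferentiableOn ℂ hh U)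
    (he : ∀ z ∈ U, X (f z) = deriv f z * X z + hh z) {y : ℂ} {r : ℝ} (hr : 0 < r) (hd : DifferentiableOn ℂ X (ball y r)) :
    Differentiable ℂ X := by
  intro w
  refine (Complex.analyticAt_of_differentiable_on_punctured_nhds_of_continuousAt ?_ hX.continuousAt).differentiableAt
  have h1 : ∀ᶠ u in 𝓝[≠] w, u ∉ F := by
    have h2 : (F \ {w})ᶜ ∈ 𝓝 w := (hFf.subset sdiff_subset).isClosed.isOpen_compl.mem_nhds fun h3 => h3.2 rfl
    rw [eventually_nhdsWithin_iff]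
    filter_upwards [h2] with u hu hne hF
    exact hu ⟨hF, hne⟩
  filter_upwards [h1] with u hu
  exact hol_pt hUo hfd hFf hleo hX hhd he hr hd hu

theorem nc_rf (hUo : IsOpen U) (hfd : DifferentiableOn ℂ f U) (hFf : F.Finite)
    (hleo : ∀ O : Set ℂ, IsOpen O → O.Nonempty → ∃ N : ℕ, ∀ n ≥ N, ∀ y : ℂ, y ∉ F → ∃ x ∈ O, x ∈ oU f U n ∧ f^[n] x = y) {n : ℕ} {X hh μ : Fin n → ℂ → ℂ} {i0 : Fin n} {b0 : ℝ}
    (hX : SFX f U E n X hh μ i0 b0) {δ' M R0 : ℝ} (hδ' : 0 < δ') : ∃ ε : ℝ, 0 < ε ∧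
    ∀ z ∈ E, ∀ (k : ℕ) (y : ℂ) (σ : ℝ) (G : ℂ → ℂ), ‖y‖ ≤ R0 → 0 < σ → DifferentiableOn ℂ G (ball y δ') →
    (∀ u ∈ ball y δ', G u ∈ oU f U k ∧ f^[k] (G u) = u ∧ ‖G u - z‖ ≤ M * σ) → σ ≤ M * ‖deriv G y‖ → ε ≤ σ := by
  by_contra hcon
  push Not at hcon
  choose z hz k y σ G hy hσ hG hGu hσM hlt using fun m : ℕ =>
    hcon (1 / ((m : ℝ) + 1)) (by positivity)
  have hM : 0 < M := by
    by_contra hM
    push Not at hM
    have h1 := hσM 0
    have h2 := hσ 0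
    have h3 : M * ‖deriv (G 0) (y 0)‖ ≤ 0 := mul_nonpos_of_nonpos_of_nonneg hM (norm_nonneg _)
    linarith
  obtain ⟨𝒰, h𝒰⟩ : ∃ 𝒰 : Ultrafilter ℕ, (𝒰 : Filter ℕ) ≤ atTop :=
    ⟨hyperfilter ℕ, Nat.hyperfilter_le_atTop⟩
  obtain ⟨yi, hyi, -⟩ := Pool.Agent.H43.UB.ul_ex 𝒰 (z := y) (M := R0) (Eventually.of_forall hy)
  choose β hβ hβ' using fun i => Pool.Agent.H43.UB.ul_ex 𝒰 (z := fun m => μ i (z m)) (M := 1)
    (Eventually.of_forall fun m => hX.up i (z m) (hz m))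
  have hσ0 : Tendsto σ (𝒰 : Filter ℕ) (𝓝 0) := by
    have h1 : Tendsto (fun m : ℕ => 1 / ((m : ℝ) + 1)) (𝒰 : Filter ℕ) (𝓝 0) :=
      tendsto_one_div_add_atTop_nhds_zero_nat.mono_left h𝒰
    exact tendsto_of_tendsto_of_tendsto_of_le_of_le tendsto_const_nhds h1 (fun m => (hσ m).le)
      fun m => (hlt m).le
  -- the rescaled branches
  have hsub : ∀ᶠ m in (𝒰 : Filter ℕ), ball yi (δ' / 2) ⊆ ball (y m) δ' := by
    filter_upwards [Metric.tendsto_nhds.1 hyi (δ' / 2) (by positivity)] with m hm u hu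
    rw [mem_ball] at hu ⊢
    calc dist u (y m) ≤ dist u yi + dist yi (y m) := dist_triangle _ _ _
      _ < δ' / 2 + δ' / 2 := by
        rw [dist_comm yi]
        exact add_lt_add hu hm
      _ = δ' := by ring
  have hgd : ∀ᶠ m in (𝒰 : Filter ℕ), DifferentiableOn ℂ (fun u => (G m u - z m) / (σ m : ℂ))
      (ball yi (δ' / 2)) := by
    filter_upwards [hsub] with m hm
    exact (((hG m).mono hm).sub_const _).div_const _
  have hgb : ∀ᶠ m in (𝒰 : Filter ℕ), ∀ u ∈ ball yi (δ' / 2), ‖(G m u - z m) / (σ m : ℂ)‖ ≤ M := by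
    filter_upwards [hsub] with m hm u hu
    rw [norm_div, Complex.norm_real, Real.norm_of_nonneg (hσ m).le, div_le_iff₀ (hσ m)]
    exact (hGu m u (hm hu)).2.2
  obtain ⟨γ, hγ, hlim⟩ := Pool.Agent.H43.UB.um 𝒰 (isOpen_ball (x := yi) (ε := δ' / 2))
    (g := fun m u => (G m u - z m) / (σ m : ℂ)) hgd fun u hu => by
      obtain ⟨s, hs, hs2⟩ := Metric.isOpen_iff.1 (isOpen_ball (x := yi) (ε := δ' / 2)) u hu
      refine ⟨s, M, hs, hs2, ?_⟩
      filter_upwards [hgb] with m hm v hv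
      exact hm v (hs2 hv)
  have hdlim := hlim.deriv hgd isOpen_ball
  have hyS : yi ∈ ball yi (δ' / 2) := mem_ball_self (by positivity)
  have hγ'c : ContinuousAt (deriv γ) yi :=
    ((hγ.deriv isOpen_ball).continuousOn).continuousAt (isOpen_ball.mem_nhds hyS)
  have hder : ∀ m, ∀ u ∈ ball (y m) δ', deriv (fun u => (G m u - z m) / (σ m : ℂ)) u =
      deriv (G m) u / (σ m : ℂ) := by
    intro m u hu
    have h1 : HasDerivAt (G m) (deriv (G m) u) u :=
      ((hG m u hu).differentiableAt (isOpen_ball.mem_nhds hu)).hasDerivAt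
    exact ((h1.sub_const (z m)).div_const (σ m : ℂ)).deriv
  have hlb : 1 / M ≤ ‖deriv γ yi‖ := by
    have h1 : Tendsto (fun m => (deriv ∘ fun m u => (G m u - z m) / (σ m : ℂ)) m (y m))
        (𝒰 : Filter ℕ) (𝓝 (deriv γ yi)) := by
      refine hdlim.tendsto_comp hγ'c.continuousWithinAt hyS ?_
      rw [tendsto_nhdsWithin_iff]
      refine ⟨hyi, ?_⟩
      exact hyi.eventually (isOpen_ball.mem_nhds hyS)
    refine ge_of_tendsto h1.norm (Eventually.of_forall fun m => ?_)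
    show 1 / M ≤ ‖deriv (fun u => (G m u - z m) / (σ m : ℂ)) (y m)‖
    rw [hder m (y m) (mem_ball_self hδ'), norm_div, Complex.norm_real,
      Real.norm_of_nonneg (hσ m).le, div_le_div_iff₀ hM (hσ m)]
    have h2 := hσM m
    linarith
  -- a ball where the derivatives are bounded below
  obtain ⟨s, hs, hsS, hsb⟩ : ∃ s : ℝ, 0 < s ∧ ball yi s ⊆ ball yi (δ' / 2) ∧
      ∀ᶠ m in (𝒰 : Filter ℕ), ∀ u ∈ ball yi s, 1 / (2 * M) * σ m ≤ ‖deriv (G m) u‖ := by
    have hε : 0 < 1 / (4 * M) := by positivity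
    obtain ⟨t, ht, ht2⟩ := Metric.tendstoLocallyUniformlyOn_iff.1 hdlim (1 / (4 * M)) hε yi hyS
    rw [isOpen_ball.nhdsWithin_eq hyS] at ht
    have h1 : ∀ᶠ u in 𝓝 yi, dist (deriv γ u) (deriv γ yi) < 1 / (4 * M) :=
      Metric.tendsto_nhds.1 hγ'c _ hε
    obtain ⟨s, hs, hs2⟩ := Metric.eventually_nhds_iff_ball.1
      ((h1.and ht).and (isOpen_ball.mem_nhds hyS))
    refine ⟨s, hs, fun u hu => (hs2 u hu).2, ?_⟩
    filter_upwards [ht2, hsub] with m hm hm2 u hu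
    obtain ⟨⟨h3, h4⟩, h5⟩ := hs2 u hu
    have h6 : dist (deriv γ u) (deriv (fun u => (G m u - z m) / (σ m : ℂ)) u) < 1 / (4 * M) :=
      hm u h4
    rw [hder m u (hm2 h5)] at h6
    rw [dist_eq_norm] at h3 h6
    have h7 : ‖deriv γ yi‖ ≤ ‖deriv γ u - deriv γ yi‖ +
        ‖deriv γ u - deriv (G m) u / (σ m : ℂ)‖ + ‖deriv (G m) u / (σ m : ℂ)‖ := by
      have e : deriv γ yi = (deriv γ u - deriv (G m) u / (σ m : ℂ)) + deriv (G m) u / (σ m : ℂ) -
          (deriv γ u - deriv γ yi) := by ring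
      calc ‖deriv γ yi‖ = ‖(deriv γ u - deriv (G m) u / (σ m : ℂ)) + deriv (G m) u / (σ m : ℂ) -
          (deriv γ u - deriv γ yi)‖ := by rw [← e]
        _ ≤ ‖(deriv γ u - deriv (G m) u / (σ m : ℂ)) + deriv (G m) u / (σ m : ℂ)‖ +
          ‖deriv γ u - deriv γ yi‖ := norm_sub_le _ _
        _ ≤ ‖deriv γ u - deriv (G m) u / (σ m : ℂ)‖ + ‖deriv (G m) u / (σ m : ℂ)‖ +
          ‖deriv γ u - deriv γ yi‖ := by
            have := norm_add_le (deriv γ u - deriv (G m) u / (σ m : ℂ)) (deriv (G m) u / (σ m : ℂ))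
            linarith
        _ = _ := by ring
    have h8 : 1 / (2 * M) ≤ ‖deriv (G m) u / (σ m : ℂ)‖ := by
      have h9 : 1 / M = 1 / (4 * M) + 1 / (4 * M) + 1 / (2 * M) := by
        field_simp
        norm_num
      linarith
    rw [norm_div, Complex.norm_real, Real.norm_of_nonneg (hσ m).le, le_div_iff₀ (hσ m)] at h8
    exact h8
  -- the combination
  obtain ⟨c, hc1, hc2⟩ := hX.dim β
  have hc0 : 0 < 1 / (2 * M) := by positivity
  have hcm : Tendsto (fun m => ‖∑ i, c i * μ i (z m)‖) (𝒰 : Filter ℕ) (𝓝 0) := by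
    have h1 : Tendsto (fun m => ∑ i, c i * μ i (z m)) (𝒰 : Filter ℕ) (𝓝 (∑ i, c i * β i)) :=
      tendsto_finsetSum _ fun i _ => (hβ i).const_mul (c i)
    rw [hc1] at h1
    have h2 := h1.norm
    rwa [norm_zero] at h2
  have happ : ∀ ε : ℝ, 0 < ε → ∃ Φ : ℂ → ℂ, DifferentiableOn ℂ Φ (ball yi s) ∧
      ∀ u ∈ ball yi s, ‖∑ i, c i * X i u - Φ u‖ ≤ ε := by
    intro ε hε
    have hC : 0 ≤ ∑ i, ‖c i‖ := Finset.sum_nonneg fun i _ => norm_nonneg _
    obtain ⟨ε1, hε1⟩ : ∃ ε1 : ℝ, ε1 = ε / (8 * M ^ 2 * (∑ i, ‖c i‖ + 1)) := ⟨_, rfl⟩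
    have hε1p : 0 < ε1 := by
      rw [hε1]
      positivity
    obtain ⟨ρ1, hρ1, h1⟩ := Pool.Agent.H66.UX.nc_app hUo hfd hX c (M := M) (c0 := 1 / (2 * M)) (ε1 := ε1) hM hc0 hε1p
    have e1 : ∀ᶠ m in (𝒰 : Filter ℕ), 2 * M * σ m < ρ1 := by
      have h2 : Tendsto (fun m => 2 * M * σ m) (𝒰 : Filter ℕ) (𝓝 (2 * M * 0)) := hσ0.const_mul _
      rw [mul_zero] at h2
      exact h2.eventually (gt_mem_nhds hρ1)
    have e2 : ∀ᶠ m in (𝒰 : Filter ℕ), ‖∑ i, c i * μ i (z m)‖ < ε / (4 * M ^ 2) :=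
      hcm.eventually (gt_mem_nhds (by positivity))
    obtain ⟨m, hm1, hm2, hm3, hm4⟩ := (e1.and (e2.and (hsb.and hsub))).exists
    have hBm : ball yi s ⊆ ball (y m) δ' := hsS.trans hm4
    obtain ⟨Φ, hΦ1, hΦ2⟩ := h1 (z m) (hz m) (k m) (σ m) (G m) (ball yi s) isOpen_ball (hσ m) hm1
      ((hG m).mono hBm) fun u hu => ⟨(hGu m u (hBm hu)).1, (hGu m u (hBm hu)).2.1,
        (hGu m u (hBm hu)).2.2, hm3 u hu⟩
    refine ⟨Φ, hΦ1, fun u hu => (hΦ2 u hu).trans ?_⟩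
    have e3 : ‖∑ i, c i * μ i (z m)‖ * M / (1 / (2 * M)) ≤ ε / 2 := by
      have h3 : ‖∑ i, c i * μ i (z m)‖ * M / (1 / (2 * M)) = ‖∑ i, c i * μ i (z m)‖ * (2 * M ^ 2) := by
        field_simp
      rw [h3]
      have h4 : ε / (4 * M ^ 2) * (2 * M ^ 2) = ε / 2 := by
        field_simp
        norm_num
      rw [← h4]
      exact mul_le_mul_of_nonneg_right hm2.le (by positivity)
    have e4 : (∑ i, ‖c i‖) * ε1 * (2 * M) / (1 / (2 * M)) ≤ ε / 2 := by
      have h3 : (∑ i, ‖c i‖) * ε1 * (2 * M) / (1 / (2 * M)) =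
          (∑ i, ‖c i‖) / (∑ i, ‖c i‖ + 1) * (ε / 2) := by
        rw [hε1]
        field_simp
        norm_num
      rw [h3]
      have h4 : (∑ i, ‖c i‖) / (∑ i, ‖c i‖ + 1) ≤ 1 := by
        rw [div_le_one (by positivity)]
        linarith
      have h5 : 0 ≤ ε / 2 := by positivity
      nlinarith
    linarith
  choose Φ hΦ1 hΦ2 using fun j : ℕ => happ (1 / ((j : ℝ) + 1)) (by positivity)
  have hdiff : DifferentiableOn ℂ (fun u => ∑ i, c i * X i u) (ball yi s) := by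
    have h1 : TendstoUniformlyOn Φ (fun u => ∑ i, c i * X i u) atTop (ball yi s) := by
      rw [Metric.tendstoUniformlyOn_iff]
      intro ε hε
      have h2 : ∀ᶠ j : ℕ in atTop, 1 / ((j : ℝ) + 1) < ε :=
        tendsto_one_div_add_atTop_nhds_zero_nat.eventually (gt_mem_nhds hε)
      filter_upwards [h2] with j hj u hu
      rw [dist_eq_norm]
      exact (hΦ2 j u hu).trans_lt hj
    exact h1.tendstoLocallyUniformlyOn.differentiableOn (Eventually.of_forall hΦ1) isOpen_ball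
  refine hc2 (hol_ext hUo hfd hFf hleo (X := fun u => ∑ i, c i * X i u) (hh := fun u => ∑ i, c i * hh i u) ?_ ?_ ?_
    hs hdiff)
  · exact continuous_finsetSum _ fun i _ => continuous_const.mul (hX.Xc i)
  · exact DifferentiableOn.fun_sum fun i _ => (differentiableOn_const _).mul (hX.hd i)
  · intro x hx
    show ∑ i, c i * X i (f x) = deriv f x * ∑ i, c i * X i x + ∑ i, c i * hh i x
    rw [Finset.mul_sum, ← Finset.sum_add_distrib]
    refine Finset.sum_congr rfl fun i _ => ?_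
    rw [hX.eq i x hx]
    ring

end Pool.Agent.H47.RZ
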