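import Pool.Agent.H47.RZ.Lcf
import Pool.Agent.H66.SP.Defs

/-!
# [H47 RZ Pgr] the planar setting `PG` from `RF`

`P` = the post-critical set, `J` a compact forward invariant set, `P ⊆ J`, `J` disjoint from the forward orbit `F` of infinity; `δ` is so small that the `δ`-neighbourhood of `J` is disjoint from `F`:
lifts of sets in this neighbourhood which avoid `P` never pass through infinity.
-/

set_option autoImplicit false

open Filter Topology Polynomial Metric Set MeasureTheory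

namespace Pool.Agent.H47.RZ

open Pool.Agent.H44.Fatou (rat rat_continuous rat_coe rat_coe_of_ne pt crit_coe)
open Pool.Agent.H32.BT (IsCrit)
open Pool.Agent.H61.TT (gg dg ww RatD)
open Pool.Agent.H66.UX (UP CrS)
open Pool.Agent.H78.UX (oU)
open Pool.Agent.H56.UD (dm)
open Pool.Agent.H66.SP (PG)

variable {a b : Polynomial ℂ} {D : ℕ} {P F : Set ℂ}

theorem F_it (h : RF a b D P F) {z : ℂ} (hz : z ∈ F) (n : ℕ) :
    (rat a b)^[n] (z : OnePoint ℂ) = (((gg a b)^[n] z : ℂ) : OnePoint ℂ) ∧ (gg a b)^[n] z ∈ F := by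
  induction n with
  | zero => exact ⟨rfl, hz⟩
  | succ n ih =>
    rw [Function.iterate_succ_apply', Function.iterate_succ_apply', ih.1, rat_coe_of_ne (h.Fb _ ih.2)]
    exact ⟨rfl, h.Fi _ ih.2⟩

/-- an orbit which ends outside `F` does not meet infinity -/
theorem orb_rf (h : RF a b D P F) {n : ℕ} {x y : ℂ} (hx : (rat a b)^[n] (x : OnePoint ℂ) = (y : OnePoint ℂ)) (hy : y ∉ F) :
    (∀ j < n, b.eval ((gg a b)^[j] x) ≠ 0) ∧ (gg a b)^[n] x = y := by
  have h1 : ∀ i ≤ n, (rat a b)^[i] (x : OnePoint ℂ) ≠ OnePoint.infty := by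
    intro i hi h2
    obtain ⟨p, hp, hfi⟩ := h.fi
    rcases Nat.lt_or_ge i n with h3 | h3
    · obtain ⟨k, rfl⟩ : ∃ k, n = k + (i + 1) := ⟨n - (i + 1), by omega⟩
      rw [Function.iterate_add_apply, Function.iterate_succ_apply', h2, hfi, (F_it h hp k).1] at hx
      exact hy (OnePoint.coe_injective hx ▸ (F_it h hp k).2)
    · obtain rfl : i = n := le_antisymm hi h3
      rw [hx] at h2
      exact OnePoint.coe_ne_infty _ h2
  have h2 : ∀ m ≤ n, (∀ j < m, b.eval ((gg a b)^[j] x) ≠ 0) ∧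
      (rat a b)^[m] (x : OnePoint ℂ) = (((gg a b)^[m] x : ℂ) : OnePoint ℂ) := by
    intro m
    induction m with
    | zero => exact fun _ => ⟨fun j hj => absurd hj (Nat.not_lt_zero j), rfl⟩
    | succ m ih =>
      intro hm
      obtain ⟨e1, e2⟩ := ih (by omega)
      have e3 : b.eval ((gg a b)^[m] x) ≠ 0 := by
        intro h5
        refine h1 (m + 1) hm ?_
        rw [Function.iterate_succ_apply', e2, rat_coe]
        unfold pt
        rw [if_pos h5]
      refine ⟨fun j hj => ?_, ?_⟩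
      · rcases Nat.lt_succ_iff_lt_or_eq.1 hj with h5 | h5
        · exact e1 j h5
        · rw [h5]
          exact e3
      · rw [Function.iterate_succ_apply', Function.iterate_succ_apply', e2, rat_coe_of_ne e3]
        rfl
  obtain ⟨e1, e2⟩ := h2 n le_rfl
  rw [e2] at hx
  exact ⟨e1, OnePoint.coe_injective hx⟩

theorem leo_rf (h : RF a b D P F) {O : Set ℂ} (hO : IsOpen O) (hn : O.Nonempty) :
    ∃ N : ℕ, ∀ n ≥ N, ∀ y : ℂ, y ∉ F → ∃ x ∈ O, x ∈ oU (gg a b) (UP b) n ∧ (gg a b)^[n] x = y := by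
  obtain ⟨N, hN⟩ := h.leo ((fun z : ℂ => (z : OnePoint ℂ)) '' O) (OnePoint.isOpenEmbedding_coe.isOpenMap O hO)
    (hn.image _)
  refine ⟨N, fun n hn y hy => ?_⟩
  obtain ⟨x, ⟨z, hz, rfl⟩, hx⟩ := hN n hn (y : OnePoint ℂ)
  obtain ⟨h2, h3⟩ := orb_rf h hx hy
  exact ⟨z, hz, fun j hj => h2 j hj, h3⟩

/-- lifts along star shaped sets avoiding `P` and `F` -/
theorem lift_rf (h : RF a b D P F) : ∀ (k : ℕ) (S : Set ℂ) (H : ℂ → ℂ) (p q z : ℂ), p ∈ S → StarConvex ℝ p S →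
    IsOpen S → DifferentiableOn ℂ H S → (∀ u ∈ S, H u ∉ P ∧ H u ∉ F) → q ∈ S → z ∈ oU (gg a b) (UP b) k →
    (gg a b)^[k] z = H q → ∃ G : ℂ → ℂ, DifferentiableOn ℂ G S ∧ G q = z ∧
      ∀ u ∈ S, G u ∈ oU (gg a b) (UP b) k ∧ (gg a b)^[k] (G u) = H u := by
  have hd1 : 1 ≤ max a.natDegree b.natDegree := by
    rw [h.rt.deg]
    have := h.rt.hd
    omega
  intro k
  induction k with
  | zero =>
    intro S H p q z _ _ _ hd _ _ _ he
    exact ⟨H, hd, he.symm, fun u _ => ⟨fun j hj => absurd hj (Nat.not_lt_zero j), rfl⟩⟩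
  | succ k ih =>
    intro S H p q z hp hS hSo hd hP hq hz he
    have hzk : z ∈ oU (gg a b) (UP b) k := fun j hj => hz j (by omega)
    have hyU : b.eval ((gg a b)^[k] z) ≠ 0 := hz k (by omega)
    rw [Function.iterate_succ_apply'] at he
    obtain ⟨G1, g1, g2, g3⟩ := lft h.rt.cop hd1 hp hS hSo hd (fun u hu hcon => by
        obtain ⟨p', hp', hfi⟩ := h.fi
        rw [hfi] at hcon
        exact (hP u hu).2 (OnePoint.coe_injective hcon ▸ hp'))
      (fun u hu c hc hcon => by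
        obtain ⟨w, rfl, hw⟩ := h.ci c hc
        have e1 : (ww a b).eval w = 0 := crit_coe hc
        rw [rat_coe_of_ne hw] at hcon
        have e2 : gg a b w = H u := OnePoint.coe_injective hcon
        exact (hP u hu).1 (e2 ▸ (h.cv w hw e1).1)) hq (z := (gg a b)^[k] z) (by
        rw [rat_coe_of_ne hyU]
        exact congrArg _ he)
    have hG1P : ∀ u ∈ S, G1 u ∉ P ∧ G1 u ∉ F := by
      intro u hu
      constructor
      · intro hPu
        refine (hP u hu).1 ?_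
        rw [← (g3 u hu).2]
        exact h.Pf _ hPu
      · intro hPu
        refine (hP u hu).2 ?_
        rw [← (g3 u hu).2]
        exact h.Fi _ hPu
    obtain ⟨G, k1, k2, k3⟩ := ih S G1 p q z hp hS hSo g1 hG1P hq hzk g2.symm
    refine ⟨G, k1, k2, fun u hu => ⟨fun j hj => ?_, ?_⟩⟩
    · rcases Nat.lt_succ_iff_lt_or_eq.1 hj with h1 | h1
      · exact (k3 u hu).1 j h1
      · rw [h1, (k3 u hu).2]
        exact (g3 u hu).1
    · rw [Function.iterate_succ_apply', (k3 u hu).2]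
      exact (g3 u hu).2

/-- the planar setting -/
theorem pg_rf (h : RF a b D P F) {J : Set ℂ} (hJc : IsCompact J) (hPJ : P ⊆ J) (hJU : J ⊆ UP b)
    (hJf : ∀ z ∈ J, gg a b z ∈ J) (hJF : Disjoint J F) (hCP : CrS a b ⊆ P)
    (hJd : ∃ D0 : ℝ, 0 < D0 ∧ ∀ k : ℕ, ∃ x ∈ J, ∃ y ∈ J, D0 ≤ ‖(gg a b)^[k] x - (gg a b)^[k] y‖) :
    ∃ δ0 : ℝ, 0 < δ0 ∧ ∀ δ : ℝ, 0 < δ → δ ≤ δ0 → ∃ (η : ℂ → ℂ → ℂ) (ρ : ℝ), PG (gg a b) (UP b) J P (CrS a b) δ η ρ := by
  obtain ⟨δ0, hδ0, hdis⟩ := hJF.exists_thickenings hJc h.Ff.isClosed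
  obtain ⟨hfin, ρ, η, hρ, hη⟩ := nf_ex h
  refine ⟨δ0, hδ0, fun δ hδ hδ' => ⟨η, ρ, ?_⟩⟩
  have hTF : Disjoint (thickening δ J) F :=
    hdis.mono (thickening_mono hδ' J) (self_subset_thickening hδ0 F)
  have hJn : J.Nonempty := h.Pn.mono hPJ
  have hleo : ∀ O : Set ℂ, IsOpen O → O.Nonempty → ∃ N : ℕ, ∀ n ≥ N, J ⊆ (gg a b)^[n] '' (O ∩ dm (gg a b) (UP b) J δ n) := by
    intro O hO hn
    obtain ⟨N, hN⟩ := leo_rf h hO hn
    refine ⟨N, fun n hn y hy => ?_⟩
    obtain ⟨x, hx, hx1, hx2⟩ := hN n hn y (Set.disjoint_left.1 hJF hy)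
    exact ⟨x, ⟨hx, hx1, by rw [hx2]; exact self_subset_thickening hδ J hy⟩, hx2⟩
  have hlift : ∀ (k : ℕ) (S : Set ℂ) (H : ℂ → ℂ) (q z : ℂ), Convex ℝ S → IsOpen S → DifferentiableOn ℂ H S →
      (∀ u ∈ S, H u ∈ thickening δ J ∧ H u ∉ P) → q ∈ S → z ∈ dm (gg a b) (UP b) J δ k → (gg a b)^[k] z = H q →
      ∃ G : ℂ → ℂ, DifferentiableOn ℂ G S ∧ G q = z ∧ ∀ u ∈ S, G u ∈ dm (gg a b) (UP b) J δ k ∧ (gg a b)^[k] (G u) = H u := by
    intro k S H q z hS hSo hH hP hq hz he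
    obtain ⟨G, g1, g2, g3⟩ := lift_rf h k S H q q z hq (hS.starConvex hq) hSo hH
      (fun u hu => ⟨(hP u hu).2, Set.disjoint_left.1 hTF (hP u hu).1⟩) hq hz.1 he
    exact ⟨G, g1, g2, fun u hu => ⟨⟨(g3 u hu).1, by rw [(g3 u hu).2]; exact (hP u hu).1⟩, (g3 u hu).2⟩⟩
  refine
    { hδ := hδ
      Uo := b.continuous.isOpen_preimage _ isClosed_singleton.isOpen_compl
      fd := fun z hz => (Pool.Agent.H61.TT.hasDerivAt_gg hz).differentiableAt.differentiableWithinAt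
      Jc := hJc
      Jt := ?_
      JU := hJU
      Jf := hJf
      Pc := h.Pc.isClosed
      Pn := h.Pn
      PJ := hPJ
      Pf := h.Pf
      lift := hlift
      leo := fun O hO hn => hleo O hO (hn.mono inter_subset_left)
      leb := ?_
      Jd := hJd
      Cf := hfin
      CJ := hCP.trans hPJ
      CP := fun c hc => (h.cv c hc.1 hc.2).1
      hρ := hρ
      nf := hη
      loc := loc_rf h hTF hρ hδ hη
      stp := ?_ }
  · obtain ⟨D0, hD0, hk⟩ := hJd
    obtain ⟨x, hx, y, hy, hxy⟩ := hk 0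
    refine ⟨x, hx, y, hy, fun he => ?_⟩
    rw [he, sub_self, norm_zero] at hxy
    linarith
  · rintro O hO ⟨q, hq, -⟩
    exact hleo O hO ⟨q, hq⟩
  · intro θ ρ0 _ _ _ h1
    refine ⟨1, one_pos, fun K y ε g u0 z' uJ _ _ hW hP hz' hu0 hfz _ _ => ?_⟩
    have hgF : ∀ v ∈ ball (0 : ℂ) 1, g v ∉ P ∧ g v ∉ F := fun v hv =>
      ⟨hP v hv, fun hF => Set.disjoint_left.1 hTF (hW.val v hv).1.2 (F_it h hF K).2⟩
    obtain ⟨G, hGd, hG0, hG1⟩ := lift_rf h 1 (ball 0 1) g 0 u0 z' (mem_ball_self one_pos)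
      ((convex_ball (0 : ℂ) 1).starConvex (mem_ball_self one_pos)) isOpen_ball hW.diff hgF
      (mem_ball_zero_iff.2 (hu0.trans_lt h1)) (fun j hj => by
        obtain rfl : j = 0 := by omega
        exact hz') hfz
    have hU : ∀ v ∈ ball (0 : ℂ) 1, G v ∈ UP b ∧ gg a b (G v) = g v := fun v hv => ⟨(hG1 v hv).1 0 one_pos, (hG1 v hv).2⟩
    refine ⟨G, ⟨hGd, ?_, ?_, ?_⟩, hU, hG0⟩
    · intro u hu u' hu' he
      refine hW.inj hu hu' ?_
      rw [← (hU u hu).2, ← (hU u' hu').2, he]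
    · intro v hv
      have h2 := hW.val v hv
      have h3 : (gg a b)^[K + 1] (G v) = (gg a b)^[K] (g v) := by rw [Function.iterate_succ_apply, (hU v hv).2]
      refine ⟨⟨fun j hj => ?_, ?_⟩, ?_⟩
      · rcases Nat.eq_zero_or_pos j with h4 | h4
        · rw [h4]
          exact (hU v hv).1
        · obtain ⟨i, rfl⟩ : ∃ i, j = i + 1 := ⟨j - 1, by omega⟩
          rw [Function.iterate_succ_apply, (hU v hv).2]
          exact h2.1.1 i (by omega)
      · rw [h3]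
        exact h2.1.2
      · rw [h3]
        exact h2.2
    · intro v hv hv1
      rw [Function.iterate_succ_apply, (hU v (mem_ball_zero_iff.2 hv1)).2]
      exact hW.col v hv hv1

end Pool.Agent.H47.RZ
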