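import Pool.Agent.H56.SPH.Eg
import Pool.Agent.H47.RZ.Nc
import Pool.Agent.H47.RZ.Pgr

/-!
# [H47 RZ Js] the fields: the typical points and the set `J`, infinity strictly preperiodic

`eg_rf`: copy of `eg_s` (H56/SPH/Eg), the attraction by `P` is a hypothesis. `js_rf`: the set `J`. `fg_rf`: `PG` and `FG` from `RF` and the fields.
-/

set_option autoImplicit false

open Filter Topology Polynomial Metric Set MeasureTheory

namespace Pool.Agent.H47.RZ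

open Pool.Agent.H61.TT (gg dg ww RatD)
open Pool.Agent.H78.UX (oU)
open Pool.Agent.H66.IL (SFX)
open Pool.Agent.H66.UX (UP CrS)
open Pool.Agent.H56.UD (dm)
open Pool.Agent.H66.SP (PG FG)

private theorem sxe_mem {a b : Polynomial ℂ} (m : ℕ) {S : Set ℂ} {z : ℂ}
    (h1 : ∀ i < m, b.eval ((gg a b)^[i] z) ≠ 0) (h2 : (gg a b)^[m] z ∈ S) :
    z ∈ (Pool.Agent.H61.TT.pre a b)^[m] S := by
  induction m generalizing z with
  | zero => exact h2
  | succ m ih =>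
    rw [Function.iterate_succ_apply']
    refine ⟨h1 0 (by omega), ih (fun i hi => ?_) h2⟩
    exact h1 (i + 1) (by omega)

private theorem sxe_null {a b : Polynomial ℂ} {D : ℕ} (hrt : RatD D a b) {S : Set ℂ}
    (hS : volume S = 0) (k : ℕ) : volume ((Pool.Agent.H61.TT.pre a b)^[k] S) = 0 := by
  induction k with
  | zero => exact hS
  | succ k ih =>
    rw [Function.iterate_succ_apply']
    exact Pool.Agent.H61.TT.null_pre hrt ih

private theorem sxe_pole {a b : Polynomial ℂ} {D : ℕ} (hrt : RatD D a b) : volume (UP b)ᶜ = 0 := by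
  have hb : b ≠ 0 := Pool.Agent.H61.TT.b_ne hrt
  have h1 : (UP b)ᶜ ⊆ (b.roots.toFinset : Set ℂ) := by
    intro z hz
    have h2 : b.eval z = 0 := not_not.1 hz
    rw [Finset.mem_coe, Multiset.mem_toFinset, mem_roots hb]
    exact h2
  exact ((Finset.finite_toSet _).subset h1).measure_zero _

/-- a compact set of typical points, uniformly attracted by `P`, whose orbits avoid the poles, the critical points and `F` -/
theorem eg_rf {a b : Polynomial ℂ} {D : ℕ} (hrt : RatD D a b) {P F E : Set ℂ} (hPn : P.Nonempty) (hF : F.Finite)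
    (hC : (CrS a b).Finite) {n : ℕ} {X hh μ : Fin n → ℂ → ℂ} {i0 : Fin n} {b0 : ℝ}
    (hX : SFX (gg a b) (UP b) E n X hh μ i0 b0)
    (hE : ∀ z ∈ E, (∀ k : ℕ, (gg a b)^[k] z ∈ UP b) → ∀ ε : ℝ, 0 < ε → ∀ᶠ k : ℕ in atTop, ∃ p ∈ P, ‖(gg a b)^[k] z - p‖ < ε) : ∃ E' ⊆ E, IsCompact E' ∧ 0 < volume E' ∧
      (∀ z ∈ E', ∀ k : ℕ, (gg a b)^[k] z ∈ UP b) ∧ (∀ z ∈ E', ∀ k : ℕ, (gg a b)^[k] z ∉ CrS a b) ∧
      (∀ z ∈ E', ∀ k : ℕ, (gg a b)^[k] z ∉ F) ∧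
      ∀ ε : ℝ, 0 < ε → ∃ N : ℕ, ∀ k ≥ N, ∀ z ∈ E', ∃ p ∈ P, ‖(gg a b)^[k] z - p‖ < ε := by
  set S : Set ℂ := ((UP b)ᶜ ∪ CrS a b) ∪ F with hS
  have hS0 : volume S = 0 := measure_union_null (measure_union_null (sxe_pole hrt) (hC.measure_zero _)) (hF.measure_zero _)
  set N : Set ℂ := ⋃ k : ℕ, (Pool.Agent.H61.TT.pre a b)^[k] S with hN
  have hN0 : volume N = 0 := measure_iUnion_null fun k => sxe_null hrt hS0 k
  have hor : ∀ z, z ∉ N → ∀ k : ℕ, (gg a b)^[k] z ∈ UP b ∧ (gg a b)^[k] z ∉ CrS a b ∧ (gg a b)^[k] z ∉ F := by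
    intro z hz k
    induction k using Nat.strong_induction_on with
    | _ k ih =>
      have h1 : (gg a b)^[k] z ∉ S := by
        intro h2
        refine hz (mem_iUnion.2 ⟨k, sxe_mem k (fun i hi => (ih i hi).1) h2⟩)
      rw [hS, mem_union, mem_union, not_or, not_or] at h1
      exact ⟨not_not.1 h1.1.1, h1.1.2, h1.2⟩
  have hE0 : 0 < volume (E \ toMeasurable volume N) := by
    rw [measure_sdiff_null (by rw [measure_toMeasurable, hN0])]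
    exact hX.Ep
  have hEm : MeasurableSet (E \ toMeasurable volume N) :=
    hX.Ec.isClosed.measurableSet.diff (measurableSet_toMeasurable _ _)
  obtain ⟨K, hK, hKc, hKp⟩ := hEm.exists_lt_isCompact hE0
  have hKN : ∀ z ∈ K, z ∉ N := fun z hz h1 => (hK hz).2 (subset_toMeasurable _ _ h1)
  have hfin : volume K ≠ ⊤ := hKc.measure_lt_top.ne
  obtain ⟨t, htK, htm, htv, htu⟩ := tendstoUniformlyOn_of_ae_tendsto (μ := volume) (s := K)
    (f := fun (k : ℕ) z => infDist ((gg a b)^[k] z) P) (g := fun _ => (0 : ℝ))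
    (fun k => (((Pool.Agent.H56.SPH.gg_meas a b).iterate k).infDist).stronglyMeasurable) stronglyMeasurable_const hKc.isClosed.measurableSet
    hfin (Eventually.of_forall fun z hz => by
      rw [Metric.tendsto_atTop]
      intro ε hε
      have h1 := hE z (hK hz).1 (fun k => (hor z (hKN z hz) k).1) ε hε
      obtain ⟨M, hM⟩ := eventually_atTop.1 h1
      refine ⟨M, fun k hk => ?_⟩
      obtain ⟨p, hp, hlt⟩ := hM k hk
      rw [Real.dist_0_eq_abs, abs_of_nonneg infDist_nonneg]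
      exact (infDist_le_dist_of_mem hp).trans_lt (by rwa [dist_eq_norm])) (ε := (volume K).toReal / 2)
    (by
      have := ENNReal.toReal_pos hKp.ne' hfin
      linarith)
  have hpos : 0 < volume (K \ t) := by
    have h2 : volume t < volume K := by
      refine htv.trans_lt ?_
      have h3 : volume K = ENNReal.ofReal (volume K).toReal := (ENNReal.ofReal_toReal hfin).symm
      have h4 := ENNReal.toReal_pos hKp.ne' hfin
      rw [h3, ENNReal.toReal_ofReal h4.le]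
      exact (ENNReal.ofReal_lt_ofReal_iff h4).2 (by linarith)
    have h5 := measure_sdiff htK htm.nullMeasurableSet (h2.trans_le le_top).ne (μ := volume)
    rw [h5]
    exact tsub_pos_of_lt h2
  obtain ⟨E', hE', hEc, hEp⟩ := (hKc.isClosed.measurableSet.diff htm).exists_lt_isCompact hpos
  refine ⟨E', fun z hz => (hK (hE' hz).1).1, hEc, hEp, fun z hz k => (hor z (hKN z (hE' hz).1) k).1,
    fun z hz k => (hor z (hKN z (hE' hz).1) k).2.1, fun z hz k => (hor z (hKN z (hE' hz).1) k).2.2, fun ε hε => ?_⟩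
  have h1 := (Metric.tendstoUniformlyOn_iff.1 htu) ε hε
  obtain ⟨M, hM⟩ := eventually_atTop.1 h1
  refine ⟨M, fun k hk z hz => ?_⟩
  have h2 := hM k hk z (hE' hz)
  rw [dist_comm, Real.dist_0_eq_abs, abs_of_nonneg infDist_nonneg] at h2
  obtain ⟨p, hp, h3⟩ := (infDist_lt_iff hPn).1 h2
  exact ⟨p, hp, by rwa [← dist_eq_norm]⟩


variable {a b : Polynomial ℂ} {D : ℕ} {P F : Set ℂ}

/-- a finite forward invariant set off `F`, its images are not small (two cycles) -/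
structure Cy (a b : Polynomial ℂ) (F C : Set ℂ) : Prop where
  Cf : C.Finite
  CU : C ⊆ UP b
  Ci : ∀ z ∈ C, gg a b z ∈ C
  CF : Disjoint C F
  Cd : ∃ D0 : ℝ, 0 < D0 ∧ ∀ k : ℕ, ∃ x ∈ C, ∃ y ∈ C, D0 ≤ ‖(gg a b)^[k] x - (gg a b)^[k] y‖

/-- `PG` for `J ∪ C` -/
theorem pg_cy (h : RF a b D P F) (hCP : CrS a b ⊆ P) {C : Set ℂ} (hC : Cy a b F C) {J : Set ℂ} (hJc : IsCompact J)
    (hPJ : P ⊆ J) (hJU : J ⊆ UP b) (hJf : ∀ z ∈ J, gg a b z ∈ J) (hJF : Disjoint J F) :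
    ∃ δ0 : ℝ, 0 < δ0 ∧ ∀ δ : ℝ, 0 < δ → δ ≤ δ0 → ∃ (η : ℂ → ℂ → ℂ) (ρ : ℝ),
      PG (gg a b) (UP b) (J ∪ C) P (CrS a b) δ η ρ := by
  refine pg_rf h (hJc.union hC.Cf.isCompact) (hPJ.trans subset_union_left) (union_subset hJU hC.CU) ?_
    (hJF.union_left hC.CF) hCP ?_
  · rintro z (hz | hz)
    · exact Or.inl (hJf z hz)
    · exact Or.inr (hC.Ci z hz)
  · obtain ⟨D0, h1, h2⟩ := hC.Cd
    refine ⟨D0, h1, fun k => ?_⟩
    obtain ⟨x, hx, y, hy, hxy⟩ := h2 k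
    exact ⟨x, Or.inr hx, y, Or.inr hy, hxy⟩

/-- `PG` and `FG` -/
theorem fg_rf (h : RF a b D P F) (hCP : CrS a b ⊆ P) {C : Set ℂ} (hCy : Cy a b F C)
    {E : Set ℂ} {n : ℕ} {X hh μ : Fin n → ℂ → ℂ} {i0 : Fin n} {b0 : ℝ} (hX : SFX (gg a b) (UP b) E n X hh μ i0 b0)
    (hE : ∀ z ∈ E, (∀ k : ℕ, (gg a b)^[k] z ∈ UP b) → ∀ ε : ℝ, 0 < ε → ∀ᶠ k : ℕ in atTop, ∃ p ∈ P, ‖(gg a b)^[k] z - p‖ < ε) :
    ∃ (J E' : Set ℂ) (δ0 : ℝ), E' ⊆ E ∧ 0 < δ0 ∧ (∀ z ∈ E', ∀ k : ℕ, (gg a b)^[k] z ∈ UP b) ∧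
      (∀ z ∈ E', ∀ k : ℕ, (gg a b)^[k] z ∉ CrS a b) ∧
      (∀ ε : ℝ, 0 < ε → ∃ N : ℕ, ∀ k ≥ N, ∀ z ∈ E', ∃ p ∈ P, ‖(gg a b)^[k] z - p‖ < ε) ∧
      (∃ d2 : ℝ, 0 < d2 ∧ ∀ z : ℂ, (∀ i : ℕ, infDist ((gg a b)^[i] z) P < d2) → z ∈ J) ∧
      ∀ δ : ℝ, 0 < δ → δ ≤ δ0 → ∃ (η : ℂ → ℂ → ℂ) (ρ : ℝ), PG (gg a b) (UP b) J P (CrS a b) δ η ρ ∧
        FG (gg a b) (UP b) J E' δ (X i0) (hh i0) (μ i0) b0 := by
  have hC := (nf_ex h).1
  have hUo : IsOpen (UP b) := b.continuous.isOpen_preimage _ isClosed_singleton.isOpen_compl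
  have hfd : DifferentiableOn ℂ (gg a b) (UP b) := fun z hz =>
    (Pool.Agent.H61.TT.hasDerivAt_gg hz).differentiableAt.differentiableWithinAt
  obtain ⟨E', hE', hEc, hEp, hEU, hEC, hEF, hEt⟩ := eg_rf h.rt h.Pn h.Ff hC hX hE
  obtain ⟨J, d2, hd2, hJc, hPJ, hEJ, hJU, hJf, hJN⟩ := Pool.Agent.H56.SPH.js_s (U := UP b \ F)
    (hUo.sdiff h.Ff.isClosed) (hfd.continuousOn.mono sdiff_subset) h.Pc h.Pn
    (fun z hz => ⟨h.Pb z hz, fun hF => Set.disjoint_left.1 h.FP hF hz⟩) h.Pf hEc (fun z hz k => ⟨hEU z hz k, hEF z hz k⟩) hEt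
  have hJU' : J ⊆ UP b := fun z hz => (hJU hz).1
  have hJF : Disjoint J F := Set.disjoint_left.2 fun z hz => (hJU hz).2
  obtain ⟨δ0, hδ0, hpg⟩ := pg_cy h hCP hCy hJc hPJ hJU' hJf hJF
  refine ⟨J ∪ C, E', δ0, hE', hδ0, hEU, hEC, hEt, ⟨d2, hd2, fun z hz => Or.inl (hJN z hz)⟩, fun δ hδ hδ' => ?_⟩
  obtain ⟨η, ρ, hPG⟩ := hpg δ hδ hδ'
  refine ⟨η, ρ, hPG, ?_⟩
  exact
    { hb := hX.hb
      Xc := hX.Xc i0
      hd := hX.hd i0
      eq := hX.eq i0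
      Ec := hEc
      EJ := hEJ.trans subset_union_left
      Ep := hEp
      lb := fun z hz => ⟨hX.lb z (hE' hz), hX.up i0 z (hE' hz)⟩
      T := fun ε hε => by
        obtain ⟨ρ', h1, h2⟩ := hX.T ε hε
        exact ⟨ρ', h1, fun z hz r hr hr' => h2 i0 z (hE' hz) r hr hr'⟩
      nc := fun δ' M hδ' => by
        obtain ⟨R, hR⟩ := (hJc.union hCy.Cf.isCompact).isBounded.exists_norm_le
        obtain ⟨ε, h1, h2⟩ := nc_rf hUo hfd h.Ff (fun O hO hn => leo_rf h hO hn) hX (δ' := δ') (M := M) (R0 := R) hδ'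
        refine ⟨ε, h1, fun z hz k y σ G hy _ hσ hG h3 h4 => ?_⟩
        exact h2 z (hE' hz) k y σ G (hR y hy) hσ hG (fun u hu => ⟨(h3 u hu).1.1, (h3 u hu).2⟩) h4 }

end Pool.Agent.H47.RZ
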