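import Pool.Agent.H47.RZ.Lft

/-!
# [H47 RZ Lcf] local coordinates at the critical points, small discs at the points of `J`, infinity strictly preperiodic

Copy of H66/UX/LCF for `RF`: the critical values are in `P`, off `F`, so their fibres are in the plane; the discs of `loc_rf` have their centres in a compact set `J` disjoint from `F`, so they avoid the image of infinity.
-/

set_option autoImplicit false

open Filter Topology Polynomial Metric Set MeasureTheory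

namespace Pool.Agent.H47.RZ

open Pool.Agent.H44.Fatou (rat rat_continuous rat_coe rat_coe_of_ne pt crit_coe)
open Pool.Agent.H32.BT (IsCrit rat_open crit_of_wr rat_fiber_finite crit_finite)
open Pool.Agent.H61.TT (gg dg ww RatD)
open Pool.Agent.H66.UX (UP CrS)

variable {a b : Polynomial ℂ} {D : ℕ} {P F : Set ℂ} {δ : ℝ}

private theorem sq_root {u : ℂ → ℂ} {z0 : ℂ} (hu : AnalyticAt ℂ u z0) (hu0 : u z0 ≠ 0) {n : ℕ}
    (hn : 0 < n) : ∃ ψ : ℂ → ℂ, AnalyticAt ℂ ψ z0 ∧ ψ z0 = 0 ∧ deriv ψ z0 ≠ 0 ∧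
      ∀ᶠ z in 𝓝 z0, ψ z ^ n = (z - z0) ^ n * u z := by
  obtain ⟨a, ha⟩ := IsAlgClosed.exists_pow_nat_eq (u z0) hn
  have ha0 : a ≠ 0 := by
    intro h
    rw [h, zero_pow hn.ne'] at ha
    exact hu0 ha.symm
  have hn0 : (n : ℂ) ≠ 0 := by exact_mod_cast hn.ne'
  set w : ℂ → ℂ := fun z => a * Complex.exp (Complex.log (u z / u z0) / n) with hw
  have hwa : AnalyticAt ℂ w z0 := by
    have h1 : AnalyticAt ℂ (fun z => u z / u z0) z0 := hu.div analyticAt_const hu0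
    have h2 : AnalyticAt ℂ (fun z => Complex.log (u z / u z0)) z0 := by
      refine h1.clog ?_
      rw [div_self hu0]
      exact Complex.one_mem_slitPlane
    have h3 : AnalyticAt ℂ (fun z => Complex.log (u z / u z0) / n) z0 :=
      h2.div analyticAt_const hn0
    exact analyticAt_const.mul h3.cexp'
  have hw0 : w z0 = a := by
    simp only [hw]
    rw [div_self hu0, Complex.log_one, zero_div, Complex.exp_zero, mul_one]
  refine ⟨fun z => (z - z0) * w z, (analyticAt_id.sub analyticAt_const).mul hwa, ?_, ?_, ?_⟩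
  · simp
  · have h1 : HasDerivAt (fun z : ℂ => z - z0) 1 z0 := (hasDerivAt_id z0).sub_const z0
    have h2 := h1.mul hwa.differentiableAt.hasDerivAt
    have h3 : deriv (fun z => (z - z0) * w z) z0 = a := by
      have h4 : HasDerivAt (fun z => (z - z0) * w z) (1 * w z0 + (z0 - z0) * deriv w z0) z0 := h2
      rw [h4.deriv, hw0]
      ring
    rw [h3]
    exact ha0
  · filter_upwards [hu.continuousAt.eventually_ne hu0] with z hz
    have h1 : Complex.exp (Complex.log (u z / u z0) / n) ^ n = u z / u z0 := by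
      rw [← Complex.exp_nat_mul, mul_div_cancel₀ _ hn0, Complex.exp_log (div_ne_zero hz hu0)]
    simp only [hw]
    rw [mul_pow, mul_pow, h1, ha]
    field_simp

/-- a local inverse, holomorphic near the value -/
private theorem loc_inv {φ : ℂ → ℂ} {z0 : ℂ} (h : AnalyticAt ℂ φ z0) (hd : deriv φ z0 ≠ 0) :
    ∃ g : ℂ → ℂ, g (φ z0) = z0 ∧ (∀ᶠ u in 𝓝 (φ z0), DifferentiableAt ℂ g u ∧ φ (g u) = u) ∧
      (∀ᶠ z in 𝓝 z0, g (φ z) = z) ∧ Tendsto g (𝓝 (φ z0)) (𝓝 z0) := by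
  have hcd : ContDiffAt ℂ 1 φ z0 := h.contDiffAt
  have hsd : HasStrictDerivAt φ (deriv φ z0) z0 := h.hasStrictDerivAt
  have hfd : HasFDerivAt φ
      ((ContinuousLinearEquiv.unitsEquivAut ℂ (Units.mk0 (deriv φ z0) hd) : ℂ ≃L[ℂ] ℂ) : ℂ →L[ℂ] ℂ) z0 :=
    (hsd.hasStrictFDerivAt_equiv hd).hasFDerivAt
  have hs := hcd.hasStrictFDerivAt' hfd one_ne_zero
  obtain ⟨G, hG⟩ : ∃ G : ℂ → ℂ, G = hcd.localInverse hfd one_ne_zero := ⟨_, rfl⟩
  have hG1 : ContDiffAt ℂ 1 G (φ z0) := by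
    rw [hG]
    exact hcd.to_localInverse hfd one_ne_zero
  have hG0 : G (φ z0) = z0 := by
    rw [hG]
    exact hcd.localInverse_apply_image hfd one_ne_zero
  have hG2 : ∀ᶠ u in 𝓝 (φ z0), φ (G u) = u := by
    rw [hG]
    exact hs.eventually_right_inverse
  have hG3 : ∀ᶠ z in 𝓝 z0, G (φ z) = z := by
    rw [hG]
    exact hs.eventually_left_inverse
  have hG4 : ∀ᶠ u in 𝓝 (φ z0), DifferentiableAt ℂ G u := by
    filter_upwards [hG1.eventually (by simp)] with u hu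
    exact hu.differentiableAt one_ne_zero
  have hG5 : Tendsto G (𝓝 (φ z0)) (𝓝 z0) := by
    have h1 : Tendsto G (𝓝 (φ z0)) (𝓝 (G (φ z0))) := hG1.continuousAt
    rwa [hG0] at h1
  exact ⟨G, hG0, hG4.and hG2, hG3, hG5⟩

/-- one critical point -/
private theorem nf_one {c : ℂ} (hb : b.eval c ≠ 0) (hw : (ww a b).eval c = 0)
    (hw' : (derivative (ww a b)).eval c ≠ 0) : ∃ (ρ0 : ℝ) (η : ℂ → ℂ), 0 < ρ0 ∧
    DifferentiableOn ℂ η (ball 0 ρ0) ∧ InjOn η (ball 0 ρ0) ∧ η 0 = c ∧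
    ∀ v ∈ ball (0 : ℂ) ρ0, b.eval (η v) ≠ 0 ∧ gg a b (η v) = gg a b c + v ^ 2 := by
  obtain ⟨p, hp⟩ : ∃ p : Polynomial ℂ, p = C (b.eval c) * a - C (a.eval c) * b := ⟨_, rfl⟩
  have hp0 : p.eval c = 0 := by
    rw [hp]
    simp only [eval_sub, eval_mul, eval_C]
    ring
  have hp1 : (derivative p).eval c = 0 := by
    have h1 : (derivative p).eval c = (ww a b).eval c := by
      rw [hp]
      unfold ww
      simp only [derivative_sub, derivative_mul, derivative_C, zero_mul, zero_add, eval_sub, eval_mul, eval_C]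
      ring
    rw [h1, hw]
  have hp2 : (derivative (derivative p)).eval c = (derivative (ww a b)).eval c := by
    rw [hp]
    unfold ww
    simp only [derivative_sub, derivative_mul, derivative_C, zero_mul, zero_add, eval_sub, eval_mul, eval_C,
      eval_add]
    ring
  obtain ⟨q1, hq1⟩ := Polynomial.dvd_iff_isRoot.2 hp0
  have hq1c : q1.eval c = 0 := by
    rw [hq1] at hp1
    simp only [derivative_mul, derivative_sub, derivative_X, derivative_C, eval_add, eval_mul, eval_sub, eval_X,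
      eval_C, sub_zero, one_mul, sub_self, zero_mul, add_zero] at hp1
    exact hp1
  obtain ⟨q, hq⟩ := Polynomial.dvd_iff_isRoot.2 hq1c
  have hpq : p = (X - C c) ^ 2 * q := by
    rw [hq1, hq]
    ring
  have hqc : q.eval c ≠ 0 := by
    intro h0
    apply hw'
    rw [← hp2, hpq]
    simp only [derivative_mul, derivative_sub, derivative_X, derivative_C, eval_add, eval_mul, eval_sub,
      eval_C, derivative_pow, derivative_add]
    rw [h0]
    simp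
  have hbc : ContinuousAt (fun z => b.eval z) c := b.continuous.continuousAt
  have hu : AnalyticAt ℂ (fun z => q.eval z / (b.eval z * b.eval c)) c := by
    refine AnalyticAt.div ?_ (AnalyticAt.mul ?_ analyticAt_const) (mul_ne_zero hb hb)
    · exact q.differentiable.analyticAt c
    · exact b.differentiable.analyticAt c
  obtain ⟨ψ, h1, h2, h3, h4⟩ := sq_root hu (div_ne_zero hqc (mul_ne_zero hb hb)) (n := 2) two_pos
  obtain ⟨g, g1, g2, g3, g4⟩ := loc_inv h1 h3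
  rw [h2] at g1 g2 g4
  have h7 : ∀ᶠ z in 𝓝 c, b.eval z ≠ 0 := hbc.eventually_ne hb
  have h8 : ∀ᶠ z in 𝓝 c, b.eval z ≠ 0 ∧ gg a b z = gg a b c + ψ z ^ 2 := by
    filter_upwards [h4, h7] with z e4 e7
    refine ⟨e7, ?_⟩
    have e1 : p.eval z = b.eval c * a.eval z - a.eval c * b.eval z := by
      rw [hp]
      simp only [eval_sub, eval_mul, eval_C]
    have e2 : p.eval z = (z - c) ^ 2 * q.eval z := by
      rw [hpq]
      simp only [eval_mul, eval_pow, eval_sub, eval_X, eval_C]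
    rw [e4]
    unfold gg
    have e3 : (z - c) ^ 2 * (q.eval z / (b.eval z * b.eval c)) =
        ((z - c) ^ 2 * q.eval z) / (b.eval z * b.eval c) := by ring
    rw [e3, ← e2, e1]
    field_simp
    ring
  obtain ⟨ρ0, hρ0, hball⟩ := Metric.eventually_nhds_iff_ball.1 (g2.and (g4.eventually h8))
  refine ⟨ρ0, g, hρ0, fun v hv => (hball v hv).1.1.differentiableWithinAt, ?_, g1, fun v hv => ?_⟩
  · intro x hx y hy hxy
    rw [← (hball x hx).1.2, ← (hball y hy).1.2, hxy]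
  · obtain ⟨⟨-, e1⟩, e2, e3⟩ := hball v hv
    rw [e1] at e3
    exact ⟨e2, e3⟩

private theorem cr_fin (h : RF a b D P F) : (CrS a b).Finite := by
  have hw : ww a b ≠ 0 := by
    intro h0
    obtain ⟨z, hz⟩ := h.Pn
    have h1 := (h.cv z (h.Pb z hz) (by rw [h0, eval_zero])).2
    rw [h0, derivative_zero, eval_zero] at h1
    exact h1 rfl
  refine (Polynomial.finite_setOfPred_isRoot hw).subset fun c hc => ?_
  exact hc.2

theorem nf_ex (h : RF a b D P F) : (CrS a b).Finite ∧ ∃ (ρ0 : ℝ) (η : ℂ → ℂ → ℂ), 0 < ρ0 ∧ ∀ c ∈ CrS a b,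
    DifferentiableOn ℂ (η c) (ball 0 ρ0) ∧ InjOn (η c) (ball 0 ρ0) ∧ η c 0 = c ∧
    ∀ v ∈ ball (0 : ℂ) ρ0, b.eval (η c v) ≠ 0 ∧ gg a b (η c v) = gg a b c + v ^ 2 := by
  have hf := cr_fin h
  refine ⟨hf, ?_⟩
  have hex : ∀ c : ℂ, ∃ (ρ0 : ℝ) (η : ℂ → ℂ), 0 < ρ0 ∧ (c ∈ CrS a b →
      DifferentiableOn ℂ η (ball 0 ρ0) ∧ InjOn η (ball 0 ρ0) ∧ η 0 = c ∧
      ∀ v ∈ ball (0 : ℂ) ρ0, b.eval (η v) ≠ 0 ∧ gg a b (η v) = gg a b c + v ^ 2) := by
    intro c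
    by_cases hc : c ∈ CrS a b
    · obtain ⟨ρ0, η, h1, h2⟩ := nf_one hc.1 hc.2 (h.cv c hc.1 hc.2).2
      exact ⟨ρ0, η, h1, fun _ => h2⟩
    · exact ⟨1, id, one_pos, fun h1 => absurd h1 hc⟩
  choose r η hr hη using hex
  have hmin : ∀ s : Finset ℂ, ∃ ρ0 : ℝ, 0 < ρ0 ∧ ∀ c ∈ s, ρ0 ≤ r c := by
    classical
    intro s
    induction s using Finset.induction_on with
    | empty => exact ⟨1, one_pos, fun c hc => absurd hc (Finset.notMem_empty c)⟩
    | insert x s hx ih =>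
      obtain ⟨ρ0, h1, h2⟩ := ih
      refine ⟨min ρ0 (r x), lt_min h1 (hr x), fun c hc => ?_⟩
      rcases Finset.mem_insert.1 hc with h3 | h3
      · rw [h3]
        exact min_le_right _ _
      · exact (min_le_left _ _).trans (h2 c h3)
  obtain ⟨ρ0, h1, h2⟩ := hmin hf.toFinset
  refine ⟨ρ0, η, h1, fun c hc => ?_⟩
  obtain ⟨e1, e2, e3, e4⟩ := hη c hc
  have hs : ball (0 : ℂ) ρ0 ⊆ ball 0 (r c) := ball_subset_ball (h2 c (hf.mem_toFinset.2 hc))
  exact ⟨e1.mono hs, e2.mono hs, e3, fun v hv => e4 v (hs hv)⟩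

/-- the two alternatives at `z` over the disc of radius `δ1` at `v` -/
private def Alt (a b : Polynomial ℂ) (ρ : ℝ) (η : ℂ → ℂ → ℂ) (v : ℂ) (δ1 : ℝ) (z : ℂ) : Prop :=
  (∃ c ∈ CrS a b, gg a b c = v ∧ z ∈ η c '' ball 0 ρ) ∨
      ∃ g : ℂ → ℂ, DifferentiableOn ℂ g (ball v δ1) ∧ g (gg a b z) = z ∧
        ∀ u ∈ ball v δ1, b.eval (g u) ≠ 0 ∧ gg a b (g u) = u

private theorem alt_mono {ρ : ℝ} {η : ℂ → ℂ → ℂ} {v : ℂ} {δ1 δ2 : ℝ} {z : ℂ} (h : Alt a b ρ η v δ1 z)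
    (h12 : δ2 ≤ δ1) : Alt a b ρ η v δ2 z := by
  rcases h with h | ⟨g, h1, h2, h3⟩
  · exact Or.inl h
  · have hs : ball v δ2 ⊆ ball v δ1 := ball_subset_ball h12
    exact Or.inr ⟨g, h1.mono hs, h2, fun u hu => h3 u (hs hu)⟩

private theorem an_gg {w : ℂ} (hb : b.eval w ≠ 0) : AnalyticAt ℂ (gg a b) w := by
  have h1 : AnalyticAt ℂ (fun z => a.eval z / b.eval z) w :=
    (a.differentiable.analyticAt w).div (b.differentiable.analyticAt w) hb
  exact h1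

/-- near one point of the fibre -/
private theorem nbh_pt {ρ : ℝ} {η : ℂ → ℂ → ℂ} (hρ : 0 < ρ) (hη : ∀ c ∈ CrS a b,
    DifferentiableOn ℂ (η c) (ball 0 ρ) ∧ InjOn (η c) (ball 0 ρ) ∧ η c 0 = c ∧
    ∀ v ∈ ball (0 : ℂ) ρ, b.eval (η c v) ≠ 0 ∧ gg a b (η c v) = gg a b c + v ^ 2) {w : ℂ} (hb : b.eval w ≠ 0) :
    ∃ δ1 : ℝ, 0 < δ1 ∧ ∀ᶠ z in 𝓝 w, Alt a b ρ η (gg a b w) δ1 z := by
  by_cases hw : (ww a b).eval w = 0
  · have hc : w ∈ CrS a b := ⟨hb, hw⟩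
    obtain ⟨h1, h2, h3, h4⟩ := hη w hc
    refine ⟨1, one_pos, ?_⟩
    have h5 : HasStrictDerivAt (η w) (deriv (η w) 0) 0 :=
      (h1.analyticAt (isOpen_ball.mem_nhds (mem_ball_self hρ))).hasStrictDerivAt
    have h6 : deriv (η w) 0 ≠ 0 :=
      norm_pos_iff.1 (Pool.Agent.H80.AJ.deriv_ne hρ h1 h2 (mem_closedBall_self (by positivity)))
    have h7 := h5.map_nhds_eq h6
    rw [h3] at h7
    have h8 : η w '' ball 0 ρ ∈ 𝓝 w := by
      rw [← h7]
      exact image_mem_map (ball_mem_nhds 0 hρ)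
    filter_upwards [h8] with z hz
    exact Or.inl ⟨w, hc, rfl, hz⟩
  · have hd : deriv (gg a b) w ≠ 0 := by
      rw [(Pool.Agent.H61.TT.hasDerivAt_gg hb).deriv]
      exact div_ne_zero hw (pow_ne_zero 2 hb)
    obtain ⟨g, g1, g2, g3, g4⟩ := loc_inv (an_gg hb) hd
    have h7 : ∀ᶠ z in 𝓝 w, b.eval z ≠ 0 := b.continuous.continuousAt.eventually_ne hb
    obtain ⟨δ1, hδ1, hball⟩ := Metric.eventually_nhds_iff_ball.1 (g2.and (g4.eventually h7))
    refine ⟨δ1, hδ1, ?_⟩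
    filter_upwards [g3] with z hz
    exact Or.inr ⟨g, fun u hu => (hball u hu).1.1.differentiableWithinAt, hz,
      fun u hu => ⟨(hball u hu).2, (hball u hu).1.2⟩⟩

/-- one critical value -/
private theorem nbh_one (h : RF a b D P F) {ρ : ℝ} {η : ℂ → ℂ → ℂ} (hρ : 0 < ρ) (hη : ∀ c ∈ CrS a b,
    DifferentiableOn ℂ (η c) (ball 0 ρ) ∧ InjOn (η c) (ball 0 ρ) ∧ η c 0 = c ∧
    ∀ v ∈ ball (0 : ℂ) ρ, b.eval (η c v) ≠ 0 ∧ gg a b (η c v) = gg a b c + v ^ 2) (v : ℂ) (hv : v ∉ F) :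
    ∃ δ1 : ℝ, 0 < δ1 ∧ ∀ z : ℂ, b.eval z ≠ 0 → gg a b z ∈ ball v δ1 → Alt a b ρ η v δ1 z := by
  classical
  have hcop := h.rt.cop
  have hd : 1 ≤ max a.natDegree b.natDegree := by
    rw [h.rt.deg]
    exact le_trans (by norm_num) h.rt.hd
  have hfin : (rat a b ⁻¹' {(v : OnePoint ℂ)}).Finite := rat_fiber_finite hcop hd _
  have hpt : ∀ x : OnePoint ℂ, ∃ (δ1 : ℝ) (W : Set (OnePoint ℂ)), 0 < δ1 ∧ IsOpen W ∧
      (rat a b x = (v : OnePoint ℂ) → x ∈ W ∧ ∀ z : ℂ, (z : OnePoint ℂ) ∈ W → Alt a b ρ η v δ1 z) := by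
    intro x
    by_cases hx : rat a b x = (v : OnePoint ℂ)
    · have hxi : x ≠ OnePoint.infty := by
        rintro rfl
        obtain ⟨p, hp, hfi⟩ := h.fi
        rw [hfi] at hx
        exact hv (OnePoint.coe_injective hx ▸ hp)
      obtain ⟨w, rfl⟩ := OnePoint.ne_infty_iff_exists.1 hxi
      have hb : b.eval w ≠ 0 := by
        intro h0
        rw [rat_coe] at hx
        unfold pt at hx
        rw [if_pos h0] at hx
        exact OnePoint.infty_ne_coe _ hx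
      have hg : gg a b w = v := by
        rw [rat_coe_of_ne hb] at hx
        exact OnePoint.coe_injective hx
      obtain ⟨δ1, hδ1, hev⟩ := nbh_pt hρ hη hb
      rw [hg] at hev
      obtain ⟨N, hN, hNo, hwN⟩ := _root_.mem_nhds_iff.1 hev
      refine ⟨δ1, (fun z : ℂ => (z : OnePoint ℂ)) '' N, hδ1,
        OnePoint.isOpenEmbedding_coe.isOpenMap N hNo, fun _ => ⟨⟨w, hwN, rfl⟩, ?_⟩⟩
      rintro z ⟨z', hz', he⟩
      have h1 : z' = z := OnePoint.coe_injective he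
      rw [← h1]
      exact hN hz'
    · exact ⟨1, ∅, one_pos, isOpen_empty, fun h1 => absurd h1 hx⟩
  choose r W hr hWo hW using hpt
  have hmin : ∀ s : Finset (OnePoint ℂ), ∃ δ0 : ℝ, 0 < δ0 ∧ ∀ x ∈ s, δ0 ≤ r x := by
    intro s
    induction s using Finset.induction_on with
    | empty => exact ⟨1, one_pos, fun c hc => absurd hc (Finset.notMem_empty c)⟩
    | insert x s hx ih =>
      obtain ⟨ρ0, h1, h2⟩ := ih
      refine ⟨min ρ0 (r x), lt_min h1 (hr x), fun c hc => ?_⟩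
      rcases Finset.mem_insert.1 hc with h3 | h3
      · rw [h3]
        exact min_le_right _ _
      · exact (min_le_left _ _).trans (h2 c h3)
  obtain ⟨δ0, hδ0, hδ0r⟩ := hmin hfin.toFinset
  obtain ⟨O, hO⟩ : ∃ O : Set (OnePoint ℂ), O = ⋃ x ∈ hfin.toFinset, W x := ⟨_, rfl⟩
  have hOo : IsOpen O := by
    rw [hO]
    exact isOpen_biUnion fun x _ => hWo x
  have hfO : ∀ x, rat a b x = (v : OnePoint ℂ) → x ∈ O := by
    intro x hx
    rw [hO]
    exact Set.mem_biUnion (hfin.mem_toFinset.2 hx) (hW x hx).1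
  have hcl : IsClosed (rat a b '' Oᶜ) := (rat_continuous hcop).isClosedMap _ hOo.isClosed_compl
  have hvn : (v : OnePoint ℂ) ∉ rat a b '' Oᶜ := by
    rintro ⟨x, hx, hx2⟩
    exact hx (hfO x hx2)
  have hpre : IsOpen {u : ℂ | (u : OnePoint ℂ) ∉ rat a b '' Oᶜ} :=
    hcl.isOpen_compl.preimage OnePoint.continuous_coe
  obtain ⟨ε, hε, hball⟩ := Metric.isOpen_iff.1 hpre v hvn
  refine ⟨min δ0 ε, lt_min hδ0 hε, fun z hz hgz => ?_⟩
  have h1 : ((gg a b z : ℂ) : OnePoint ℂ) ∉ rat a b '' Oᶜ :=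
    hball (ball_subset_ball (min_le_right _ _) hgz)
  have h2 : rat a b (z : OnePoint ℂ) = ((gg a b z : ℂ) : OnePoint ℂ) := rat_coe_of_ne hz
  have h3 : (z : OnePoint ℂ) ∈ O := by
    by_contra h4
    exact h1 ⟨z, h4, h2⟩
  rw [hO] at h3
  simp only [Set.mem_iUnion, exists_prop] at h3
  obtain ⟨x, hx, hx2⟩ := h3
  have h5 := (hW x (hfin.mem_toFinset.1 hx)).2 z hx2
  exact alt_mono h5 ((min_le_left _ _).trans (hδ0r x hx))

theorem nbh (h : RF a b D P F) {ρ : ℝ} {η : ℂ → ℂ → ℂ} (hρ : 0 < ρ) (hη : ∀ c ∈ CrS a b,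
    DifferentiableOn ℂ (η c) (ball 0 ρ) ∧ InjOn (η c) (ball 0 ρ) ∧ η c 0 = c ∧
    ∀ v ∈ ball (0 : ℂ) ρ, b.eval (η c v) ≠ 0 ∧ gg a b (η c v) = gg a b c + v ^ 2) :
    ∃ δ1 : ℝ, 0 < δ1 ∧ ∀ c0 ∈ CrS a b, ∀ z : ℂ, b.eval z ≠ 0 → gg a b z ∈ ball (gg a b c0) δ1 →
      (∃ c ∈ CrS a b, gg a b c = gg a b c0 ∧ z ∈ η c '' ball 0 ρ) ∨
      ∃ g : ℂ → ℂ, DifferentiableOn ℂ g (ball (gg a b c0) δ1) ∧ g (gg a b z) = z ∧
        ∀ u ∈ ball (gg a b c0) δ1, b.eval (g u) ≠ 0 ∧ gg a b (g u) = u := by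
  classical
  have hf := cr_fin h
  have hex : ∀ c0 : ℂ, ∃ δ1 : ℝ, 0 < δ1 ∧ (c0 ∈ CrS a b → ∀ z : ℂ, b.eval z ≠ 0 → gg a b z ∈ ball (gg a b c0) δ1 →
      Alt a b ρ η (gg a b c0) δ1 z) := by
    intro c0
    by_cases hc0 : c0 ∈ CrS a b
    · obtain ⟨δ1, h1, h2⟩ := nbh_one h hρ hη (gg a b c0)
        (fun hF => Set.disjoint_left.1 h.FP hF (h.cv c0 hc0.1 hc0.2).1)
      exact ⟨δ1, h1, fun _ => h2⟩
    · exact ⟨1, one_pos, fun h1 => absurd h1 hc0⟩
  choose r hr hA using hex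
  have hmin : ∀ s : Finset ℂ, ∃ ρ0 : ℝ, 0 < ρ0 ∧ ∀ c ∈ s, ρ0 ≤ r c := by
    intro s
    induction s using Finset.induction_on with
    | empty => exact ⟨1, one_pos, fun c hc => absurd hc (Finset.notMem_empty c)⟩
    | insert x s hx ih =>
      obtain ⟨ρ0, h1, h2⟩ := ih
      refine ⟨min ρ0 (r x), lt_min h1 (hr x), fun c hc => ?_⟩
      rcases Finset.mem_insert.1 hc with h3 | h3
      · rw [h3]
        exact min_le_right _ _
      · exact (min_le_left _ _).trans (h2 c h3)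
  obtain ⟨δ1, h1, h2⟩ := hmin hf.toFinset
  refine ⟨δ1, h1, fun c0 hc0 z hz hgz => ?_⟩
  have h3 := h2 c0 (hf.mem_toFinset.2 hc0)
  exact alt_mono (hA c0 hc0 z hz (ball_subset_ball h3 hgz)) h3

theorem loc_rf (h : RF a b D P F) {J : Set ℂ} (hJF : Disjoint (thickening δ J) F) {ρ : ℝ} {η : ℂ → ℂ → ℂ} (hρ : 0 < ρ)
    (hδ : 0 < δ) (hη : ∀ c ∈ CrS a b,
    DifferentiableOn ℂ (η c) (ball 0 ρ) ∧ InjOn (η c) (ball 0 ρ) ∧ η c 0 = c ∧
    ∀ v ∈ ball (0 : ℂ) ρ, b.eval (η c v) ≠ 0 ∧ gg a b (η c v) = gg a b c + v ^ 2) :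
    ∃ δ1 : ℝ, 0 < δ1 ∧ δ1 ≤ δ ∧ ∀ y ∈ J, ∀ z ∈ UP b, gg a b z ∈ ball y δ1 →
    (∃ g : ℂ → ℂ, DifferentiableOn ℂ g (ball y δ1) ∧ g (gg a b z) = z ∧ ∀ u ∈ ball y δ1, g u ∈ UP b ∧ gg a b (g u) = u) ∨
    (∃ c ∈ CrS a b, ball y δ1 ⊆ ball (gg a b c) (ρ ^ 2 / 4) ∧ z ∈ η c '' ball 0 ρ) := by
  obtain ⟨δ1, hδ1, hn⟩ := nbh h hρ hη
  have hcop := h.rt.cop
  have hd : 1 ≤ max a.natDegree b.natDegree := by
    rw [h.rt.deg]
    exact le_trans (by norm_num) h.rt.hd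
  obtain ⟨δ2, hδ2⟩ : ∃ δ2 : ℝ, δ2 = min δ (min (δ1 / 2) (ρ ^ 2 / 8)) := ⟨_, rfl⟩
  have h0 : 0 < δ2 := by
    rw [hδ2]
    exact lt_min hδ (lt_min (half_pos hδ1) (by positivity))
  have h1 : δ2 ≤ δ := hδ2 ▸ min_le_left _ _
  have h2 : δ2 ≤ δ1 / 2 := hδ2 ▸ (min_le_right _ _).trans (min_le_left _ _)
  have h3 : δ2 ≤ ρ ^ 2 / 8 := hδ2 ▸ (min_le_right _ _).trans (min_le_right _ _)
  refine ⟨δ2, h0, h1, fun y hy z hz hgz => ?_⟩
  by_cases hc : ∃ c0 ∈ CrS a b, gg a b c0 ∈ ball y δ2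
  · obtain ⟨c0, hc0, hc0y⟩ := hc
    have hsub : ∀ t : ℝ, 2 * δ2 ≤ t → ball y δ2 ⊆ ball (gg a b c0) t := by
      intro t ht u hu
      rw [mem_ball_iff_norm] at hu hc0y ⊢
      have e1 : u - gg a b c0 = (u - y) - (gg a b c0 - y) := by ring
      rw [e1]
      refine (norm_sub_le _ _).trans_lt ?_
      linarith
    have hs1 := hsub δ1 (by linarith)
    rcases hn c0 hc0 z hz (hs1 hgz) with ⟨c, hcc, hcg, hcz⟩ | ⟨g, g1, g2, g3⟩
    · right
      refine ⟨c, hcc, ?_, hcz⟩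
      rw [hcg]
      exact hsub _ (by linarith)
    · left
      exact ⟨g, g1.mono hs1, g2, fun u hu => g3 u (hs1 hu)⟩
  · left
    push Not at hc
    obtain ⟨G, g1, g2, g3⟩ := lft hcop hd (S := ball y δ2) (mem_ball_self h0)
      ((convex_ball y δ2).starConvex (mem_ball_self h0)) isOpen_ball (H := fun u => u) differentiableOn_id
      (by
        intro u hu he
        obtain ⟨p, hp, hfi⟩ := h.fi
        rw [hfi] at he
        have e1 : p = u := OnePoint.coe_injective he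
        refine Set.disjoint_left.1 hJF ?_ hp
        rw [e1]
        exact ball_subset_thickening hy δ (ball_subset_ball h1 hu))
      (by
        intro u hu c hcr he
        obtain ⟨w, rfl, hw⟩ := h.ci c hcr
        have e1 : (ww a b).eval w = 0 := crit_coe hcr
        rw [rat_coe_of_ne hw] at he
        have e2 : gg a b w = u := OnePoint.coe_injective he
        refine hc w ⟨hw, e1⟩ ?_
        rw [e2]
        exact hu) (q := gg a b z) (z := z) hgz (rat_coe_of_ne hz)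
    exact ⟨G, g1, g2, fun u hu => g3 u hu⟩

end Pool.Agent.H47.RZ
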