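import Pool.Agent.H47.RZ.Defs
import Pool.Agent.H32.BT.Branch

/-!
# [H47 RZ Lft] lifts over star shaped sets, infinity not fixed

Copy of `lft` (H66/UX/LFT): instead of `rat a b ∞ = ∞` the image of infinity is avoided.
-/

set_option autoImplicit false

open Filter Topology Polynomial Metric Set MeasureTheory

namespace Pool.Agent.H47.RZ

open Pool.Agent.H44.Fatou (rat rat_continuous rat_coe rat_coe_of_ne pt crit_coe)
open Pool.Agent.H32.BT (IsCrit rat_open crit_of_wr)
open Pool.Agent.H61.TT (gg dg ww RatD)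

theorem lft {a b : Polynomial ℂ} (hcop : IsCoprime a b) (hd : 1 ≤ max a.natDegree b.natDegree)
    {S : Set ℂ} {p : ℂ} (hp : p ∈ S) (hS : StarConvex ℝ p S) (ho : IsOpen S)
    {H : ℂ → ℂ} (hH : DifferentiableOn ℂ H S) (hfi : ∀ u ∈ S, rat a b OnePoint.infty ≠ (H u : OnePoint ℂ))
    (hcv : ∀ u ∈ S, ∀ c : OnePoint ℂ, IsCrit (rat a b) c → rat a b c ≠ (H u : OnePoint ℂ)) {q z : ℂ} (hq : q ∈ S)
    (hz : rat a b (z : OnePoint ℂ) = (H q : OnePoint ℂ)) :
    ∃ G : ℂ → ℂ, DifferentiableOn ℂ G S ∧ G q = z ∧ ∀ u ∈ S, b.eval (G u) ≠ 0 ∧ gg a b (G u) = H u := by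
  classical
  have hfc : Continuous (rat a b) := rat_continuous hcop
  have hFo : IsOpenMap (rat a b) := rat_open hcop hd
  obtain ⟨s, hs⟩ : ∃ s : Set (OnePoint ℂ), s = (fun w : ℂ => ((H w : ℂ) : OnePoint ℂ)) '' S := ⟨_, rfl⟩
  have hcov : IsCoveringMapOn (rat a b) s := by
    refine IsCoveringMapOn.of_isLocalHomeomorphOn hfc ?_
    rw [isLocalHomeomorphOn_iff_isOpenEmbedding_restrict]
    intro u hu
    have hu' : rat a b u ∈ s := hu
    rw [hs] at hu'
    obtain ⟨y, hy1, hy2⟩ := hu'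
    have h1 : ¬ IsCrit (rat a b) u := fun hc => hcv y hy1 u hc hy2.symm
    unfold IsCrit at h1
    rw [not_not] at h1
    obtain ⟨U, hU, hUi⟩ := h1
    obtain ⟨U', hU'U, hU'o, hu'⟩ := _root_.mem_nhds_iff.1 hU
    refine ⟨U', hU'o.mem_nhds hu', ?_⟩
    refine Topology.IsOpenEmbedding.of_continuous_injective_isOpenMap ?_ ?_ ?_
    · exact hfc.comp continuous_subtype_val
    · intro x y hxy
      exact Subtype.ext (hUi (hU'U x.2) (hU'U y.2) hxy)
    · exact hFo.comp hU'o.isOpenMap_subtype_val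
  have hcontr : ContractibleSpace S := StarConvex.contractibleSpace hS ⟨p, hp⟩
  have hlpc : LocallyPathConnectedSpace S := ho.locallyPathConnectedSpace
  have hHc : Continuous fun w : S => H w := by
    have h1 := continuousOn_iff_continuous_domRestrict.1 hH.continuousOn
    exact h1
  let ι : C(S, OnePoint ℂ) := ⟨fun w => ((H w : ℂ) : OnePoint ℂ), OnePoint.continuous_coe.comp hHc⟩
  obtain ⟨L, ⟨hL1, hL2⟩, -⟩ := hcov.existsUnique_continuousMap_lifts ι
    (a₀ := ⟨q, hq⟩) (e₀ := (z : OnePoint ℂ)) hz (fun w => by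
      rw [hs]
      exact ⟨w, w.2, rfl⟩)
  have hL3 : ∀ w : S, rat a b (L w) = ((H w : ℂ) : OnePoint ℂ) := fun w => congrFun hL2 w
  have hfin : ∀ w : S, ∃ g : ℂ, L w = (g : OnePoint ℂ) := by
    intro w
    have h1 : L w ≠ OnePoint.infty := by
      intro h2
      have h3 := hL3 w
      rw [h2] at h3
      exact hfi w w.2 h3
    obtain ⟨g, hg⟩ := OnePoint.ne_infty_iff_exists.1 h1
    exact ⟨g, hg.symm⟩
  choose g hg using hfin
  have hgc : Continuous g := by
    rw [OnePoint.isOpenEmbedding_coe.isInducing.continuous_iff]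
    have h1 : ((↑) : ℂ → OnePoint ℂ) ∘ g = L := by
      funext w
      exact (hg w).symm
    rw [h1]
    exact L.continuous
  obtain ⟨G, hGdef⟩ : ∃ G : ℂ → ℂ, G = fun w => if hw : w ∈ S then g ⟨w, hw⟩ else 0 := ⟨_, rfl⟩
  have hGg : ∀ (w : ℂ) (hw : w ∈ S), G w = g ⟨w, hw⟩ := fun w hw => by
    rw [hGdef]
    exact dif_pos hw
  have hGL : ∀ (w : ℂ) (hw : w ∈ S), (G w : OnePoint ℂ) = L ⟨w, hw⟩ := fun w hw => by
    rw [hGg w hw, hg]
  have hGF : ∀ w ∈ S, rat a b (G w : OnePoint ℂ) = ((H w : ℂ) : OnePoint ℂ) := by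
    intro w hw
    rw [hGL w hw, hL3]
  have hGc : ContinuousOn G S := by
    rw [continuousOn_iff_continuous_domRestrict]
    have h1 : S.domRestrict G = g := by
      funext w
      exact hGg w w.2
    rw [h1]
    exact hgc
  have hGb : ∀ w ∈ S, b.eval (G w) ≠ 0 ∧ gg a b (G w) = H w := by
    intro w hw
    have h1 := hGF w hw
    have h2 : b.eval (G w) ≠ 0 := by
      intro h3
      rw [rat_coe] at h1
      unfold pt at h1
      rw [if_pos h3] at h1
      exact OnePoint.infty_ne_coe _ h1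
    refine ⟨h2, ?_⟩
    rw [rat_coe_of_ne h2] at h1
    exact OnePoint.coe_injective h1
  refine ⟨G, ?_, ?_, hGb⟩
  · intro u0 hu0
    refine DifferentiableAt.differentiableWithinAt ?_
    obtain ⟨hb0, hg0⟩ := hGb u0 hu0
    have hww : (ww a b).eval (G u0) ≠ 0 := by
      intro h1
      exact hcv u0 hu0 (G u0) (crit_of_wr hcop hd h1) (hGF u0 hu0)
    have hdg : dg a b (G u0) ≠ 0 := div_ne_zero hww (pow_ne_zero 2 hb0)
    have hsd : HasStrictDerivAt (gg a b) (dg a b (G u0)) (G u0) := Pool.Agent.H61.TT.hasStrictDerivAt_gg hb0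
    have hGat : ContinuousAt G u0 := hGc.continuousAt (ho.mem_nhds hu0)
    have hsf := hsd.hasStrictFDerivAt_equiv hdg
    have hinv := hsd.to_localInverse hdg
    have h1 : ∀ᶠ u in 𝓝 u0, HasStrictDerivAt.localInverse (gg a b) (dg a b (G u0)) (G u0) hsd hdg
        (gg a b (G u)) = G u := hGat.eventually hsf.eventually_left_inverse
    have h2 : G =ᶠ[𝓝 u0] fun u => HasStrictDerivAt.localInverse (gg a b) (dg a b (G u0)) (G u0) hsd hdg (H u) := by
      filter_upwards [h1, ho.mem_nhds hu0] with u hu1 hu2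
      rw [(hGb u hu2).2] at hu1
      exact hu1.symm
    refine DifferentiableAt.congr_of_eventuallyEq ?_ h2
    have h3 := hinv.hasDerivAt.differentiableAt
    rw [hg0] at h3
    exact h3.comp u0 (hH.differentiableAt (ho.mem_nhds hu0))
  · have h1 := hGL q hq
    rw [hL1] at h1
    exact OnePoint.coe_injective h1

end Pool.Agent.H47.RZ
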